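import Pool.Agent.Helper65.NR.Abs4

set_option autoImplicit false

/-! # The cut off kernel and its distance from the averaged kernel -/

namespace Pool.Agent.Helper65.NR

open MeasureTheory Set Filter Topology

/-- a cut off function -/
noncomputable def chi (a x : ℝ) : ℝ := max 0 (min 1 (2 - |x| / a))

lemma chi_cont (a : ℝ) : Continuous (chi a) := by unfold chi; fun_prop

lemma chi_nonneg (a x : ℝ) : 0 ≤ chi a x := le_max_left _ _

lemma chi_le_one (a x : ℝ) : chi a x ≤ 1 := max_le zero_le_one (min_le_left _ _)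

lemma chi_one {a x : ℝ} (ha : 0 < a) (hx : |x| ≤ a) : chi a x = 1 := by
  unfold chi
  have h1 : |x| / a ≤ 1 := by rw [div_le_one ha]; exact hx
  rw [min_eq_left (by linarith), max_eq_right zero_le_one]

lemma chi_zero {a x : ℝ} (ha : 0 < a) (hx : 2 * a ≤ |x|) : chi a x = 0 := by
  unfold chi
  have h1 : 2 ≤ |x| / a := by rw [le_div_iff₀ ha]; exact hx
  exact max_eq_left ((min_le_right _ _).trans (by linarith))

/-- the cut off kernel -/
noncomputable def gk (G : ℝ → ℝ) (a R' x : ℝ) : ℝ := max (chi a x) (box G x * chi R' x)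

variable {G : ℝ → ℝ} {C a R' η : ℝ}

lemma gk_cont (h : Ker G C) : Continuous (gk G a R') := by
  unfold gk
  exact (chi_cont a).max ((box_cont h.cont).mul (chi_cont R'))

lemma gk_nonneg (x : ℝ) : 0 ≤ gk G a R' x := (chi_nonneg a x).trans (le_max_left _ _)

lemma box_le_one (h : Ker G C) (hG1 : ∀ x, G x ≤ 1) (x : ℝ) : box G x ≤ 1 :=
  box_mono h.cont fun _ _ => hG1 _

lemma gk_le_one (h : Ker G C) (hG1 : ∀ x, G x ≤ 1) (x : ℝ) : gk G a R' x ≤ 1 := by
  refine max_le (chi_le_one a x) ?_
  have h1 := box_le_one h hG1 x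
  have h2 := (ker_box h).nonneg x
  have h3 := chi_le_one R' x
  have h4 := chi_nonneg R' x
  nlinarith

lemma gk_one (h : Ker G C) (hG1 : ∀ x, G x ≤ 1) (ha : 0 < a) {x : ℝ} (hx : |x| ≤ a) :
    gk G a R' x = 1 :=
  le_antisymm (gk_le_one h hG1 x) (by
    unfold gk
    rw [chi_one ha hx]
    exact le_max_left _ _)

lemma gk_zero (ha : 0 < a) (haR : 2 * a ≤ R') {x : ℝ} (hx : 2 * R' ≤ |x|) :
    gk G a R' x = 0 := by
  unfold gk
  rw [chi_zero ha (by linarith), chi_zero (by linarith) hx, mul_zero, max_self]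

lemma gk_supp (ha : 0 < a) (haR : 2 * a ≤ R') : HasCompactSupport (gk G a R') := by
  refine HasCompactSupport.intro (isCompact_Icc (a := -(2 * R')) (b := 2 * R')) fun x hx => ?_
  apply gk_zero ha haR
  by_contra hcon
  push Not at hcon
  exact hx (mem_Icc.2 (abs_le.1 hcon.le))

/-- the error kernel -/
noncomputable def FF (C r q η : ℝ) (x : ℝ) : ℝ :=
  (Icc (-r) r).indicator (fun _ => η) x + {x : ℝ | q < |x|}.indicator (fun x => C / (1 + x ^ 2)) x

lemma meas_q (q : ℝ) : MeasurableSet {x : ℝ | q < |x|} := measurableSet_lt measurable_const (by fun_prop)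

lemma ker_inv {C : ℝ} (hC : 0 ≤ C) : Ker (fun x : ℝ => C / (1 + x ^ 2)) C where
  cont := by
    apply Continuous.div continuous_const (by fun_prop)
    intro x
    positivity
  nonneg := fun x => by positivity
  le := fun x => le_rfl
  C0 := hC

lemma FF_int {C r q η : ℝ} (hC : 0 ≤ C) : Integrable (FF C r q η) := by
  unfold FF
  refine Integrable.add ?_ ((ker_inv hC).int.indicator (meas_q q))
  rw [integrable_indicator_iff measurableSet_Icc]
  exact integrableOn_const (by rw [Real.volume_Icc]; exact ENNReal.ofReal_ne_top)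

lemma FF_nonneg {C r q η : ℝ} (hC : 0 ≤ C) (hη : 0 ≤ η) (x : ℝ) : 0 ≤ FF C r q η x := by
  unfold FF
  refine add_nonneg (indicator_nonneg (fun _ _ => hη) _) (indicator_nonneg (fun x _ => ?_) _)
  positivity

lemma FF_mass {C r q η : ℝ} (hC : 0 ≤ C) (hr : 0 ≤ r) (hq : 0 < q) :
    ∫ x, FF C r q η x ≤ 2 * r * η + 2 * C / q := by
  unfold FF
  rw [integral_add]
  · rw [integral_indicator measurableSet_Icc, integral_indicator (meas_q q), integral_const,
      smul_eq_mul, Measure.real, Measure.restrict_apply_univ, Real.volume_Icc,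
      ENNReal.toReal_ofReal (by linarith)]
    have h1 := tail_inv hq (ker_inv hC).cont (ker_inv hC).nonneg (ker_inv hC).le hC
    have : (r - -r) * η = 2 * r * η := by ring
    linarith
  · rw [integrable_indicator_iff measurableSet_Icc]
    exact integrableOn_const (by rw [Real.volume_Icc]; exact ENNReal.ofReal_ne_top)
  · exact (ker_inv hC).int.indicator (meas_q q)

lemma FF_comp {C r q η x y : ℝ} (hC : 0 ≤ C) (hη : 0 ≤ η) (hq : 2 ≤ q) (h : |x - y| ≤ 1) :
    FF C r q η x ≤ FF (4 * C) (r + 1) (q / 2) η y := by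
  unfold FF
  obtain ⟨h1, h2⟩ := abs_le.1 h
  apply add_le_add
  · by_cases hx : x ∈ Icc (-r) r
    · rw [indicator_of_mem hx, indicator_of_mem (mem_Icc.2 ⟨by linarith [hx.1], by linarith [hx.2]⟩)]
    · rw [indicator_of_notMem hx]
      exact indicator_nonneg (fun _ _ => hη) _
  · by_cases hx : x ∈ {x : ℝ | q < |x|}
    · have h3 : |x| ≤ |y| + 1 := by
        have := abs_sub_abs_le_abs_sub x y
        linarith
      have h3' : |y| ≤ |x| + 1 := by
        have := abs_sub_abs_le_abs_sub y x
        rw [abs_sub_comm] at this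
        linarith
      have hx' : q < |x| := hx
      have hy : y ∈ {x : ℝ | q / 2 < |x|} := by
        show q / 2 < |y|
        linarith
      rw [indicator_of_mem hx, indicator_of_mem hy, div_le_div_iff₀ (by positivity) (by positivity)]
      have h4 : y ^ 2 ≤ (|x| + 1) ^ 2 := by
        rw [← sq_abs y]
        exact pow_le_pow_left₀ (abs_nonneg _) h3' 2
      have h5 : 1 + y ^ 2 ≤ 4 * (1 + x ^ 2) := by
        have h6 := sq_abs x
        nlinarith [sq_nonneg (|x| - 1)]
      nlinarith
    · rw [indicator_of_notMem hx]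
      exact indicator_nonneg (fun y _ => by positivity) _

lemma gk_diff (h : Ker G C) (hG1 : ∀ x, G x ≤ 1) (ha : 0 < a) (haR : 2 * a ≤ R')
    (hη : 0 ≤ η) (hGη : ∀ x, |x| ≤ 2 * a + 1 / 2 → 1 - η ≤ G x) (x : ℝ) :
    |gk G a R' x - box G x| ≤ FF (2 * C) (2 * a) R' η x := by
  have hC := h.C0
  have hb0 := (ker_box h).nonneg x
  have hb1 := box_le_one h hG1 x
  have hR'0 : 0 < R' := by linarith
  have n1 : 0 ≤ (Icc (-(2 * a)) (2 * a)).indicator (fun _ => η) x :=
    indicator_nonneg (fun _ _ => hη) _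
  have n2 : 0 ≤ {x : ℝ | R' < |x|}.indicator (fun x => 2 * C / (1 + x ^ 2)) x :=
    indicator_nonneg (fun _ _ => by positivity) _
  unfold FF
  by_cases h1 : |x| ≤ 2 * a
  · have h2 : box G x * chi R' x = box G x := by
      rw [chi_one hR'0 (by linarith), mul_one]
    have h3 : 1 - η ≤ box G x := box_mono' h.cont fun v hv => hGη _ (by
      have := abs_add_le x v
      linarith)
    have h4 : box G x ≤ gk G a R' x := by
      unfold gk
      rw [h2]
      exact le_max_right _ _
    have h5 := gk_le_one (a := a) (R' := R') h hG1 x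
    rw [indicator_of_mem (mem_Icc.2 (abs_le.1 h1)), abs_of_nonneg (by linarith)]
    linarith
  · push Not at h1
    have h2 : gk G a R' x = box G x * chi R' x := by
      unfold gk
      rw [chi_zero ha h1.le]
      exact max_eq_right (mul_nonneg hb0 (chi_nonneg _ _))
    by_cases h3 : |x| ≤ R'
    · rw [h2, chi_one hR'0 h3, mul_one, sub_self, abs_zero]
      linarith
    · push Not at h3
      rw [h2]
      have h4 := chi_nonneg R' x
      have h5 := chi_le_one R' x
      have h6 : |box G x * chi R' x - box G x| ≤ box G x := by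
        rw [abs_le]
        constructor <;> nlinarith
      rw [indicator_of_mem (show x ∈ {x : ℝ | R' < |x|} from h3)]
      have h7 := (ker_box h).le x
      linarith

end Pool.Agent.Helper65.NR
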