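import Pool.Agent.Helper65.NR.Both
import Pool.Agent.Helper65.NR.Cut

set_option autoImplicit false

/-! # The smooth sum over the zeros in a block -/

namespace Pool.Agent.Helper65.NR

open MeasureTheory Set Filter Topology
open H370 H370.A2

/-- the normalised ordinate -/
noncomputable def uu (L : ℝ) (s : ℂ) : ℝ := s.im * L / (2 * Real.pi)

/-- the weights -/
noncomputable def ww (s : ℂ) : ℝ := (mult riemannZeta s : ℝ)

lemma ww_nonneg (s : ℂ) : 0 ≤ ww s := Nat.cast_nonneg _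

/-- the mean square of the smooth sum is the pair sum -/
lemma sq_eq_PP {R : ℝ} {J : ℕ} (hR : 0 < R) (hJ : 1 ≤ J) {A B L : ℝ} (hA : 1 ≤ A) :
    ∫ σ, Ys (Zf riemannZeta A B) (uu L) ww (GJ R J) σ ^ 2 =
      PP (fun α => phi R J α ^ 2) (1 / R) A B L := by
  rw [Ys_sq (ker_GJ hR hJ)]
  unfold H370.A2.PP
  rw [finsum_Zf good_zeta hA]
  refine Finset.sum_congr rfl fun s _ => ?_
  rw [finsum_Zf good_zeta hA]
  refine Finset.sum_congr rfl fun s' _ => ?_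
  rw [GJ_conv hR hJ]
  unfold ww uu
  congr 2
  ring

lemma sum_ww {A B : ℝ} (hA : 1 ≤ A) :
    ∑ s ∈ Zf riemannZeta A B, ww s = (NN riemannZeta A B : ℝ) := by
  rw [NN_eq good_zeta hA]
  push_cast
  rfl

/-- the local counts are bounded by a smooth sum -/
lemma cc_le_Ys {A B L : ℝ} (σ : ℝ) :
    cc (Zf riemannZeta A B) (uu L) ww σ ≤ 2 * Ys (Zf riemannZeta A B) (uu L) ww (GJ 2 1) σ := by
  unfold cc Ys
  rw [Finset.mul_sum]
  refine Finset.sum_le_sum fun s _ => ?_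
  have h0 := ww_nonneg s
  have h1 : bx (uu L s) σ ≤ 2 * GJ 2 1 (uu L s - σ) := by
    unfold bx
    by_cases h : σ ∈ Icc (uu L s - 1 / 2) (uu L s + 1 / 2)
    · rw [indicator_of_mem h]
      have h2 : |uu L s - σ| ≤ 1 / 2 := by
        rw [abs_le]
        constructor <;> linarith [h.1, h.2]
      have h3 := GJ_ge (R := 2) (J := 1) (by norm_num) le_rfl h2 (by
        have := Real.pi_lt_four
        linarith)
      norm_num at h3
      linarith
    · rw [indicator_of_notMem h]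
      have := GJ_nonneg (R := 2) (J := 1) (uu L s - σ)
      linarith
  calc ww s * bx (uu L s) σ ≤ ww s * (2 * GJ 2 1 (uu L s - σ)) := by gcongr
    _ = _ := by ring

lemma cc_sq_le {A B L : ℝ} (hA : 1 ≤ A) :
    ∫ σ, cc (Zf riemannZeta A B) (uu L) ww σ ^ 2 ≤
      4 * PP (fun α => phi 2 1 α ^ 2) (1 / 2) A B L := by
  have h1 : ∫ σ, cc (Zf riemannZeta A B) (uu L) ww σ ^ 2 ≤
      ∫ σ, 4 * Ys (Zf riemannZeta A B) (uu L) ww (GJ 2 1) σ ^ 2 := by
    refine integral_mono (cc_sq_int ww_nonneg)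
      ((Ys_sq_int (ker_GJ (by norm_num) le_rfl) ww_nonneg).const_mul 4) fun σ => ?_
    have h2 := cc_le_Ys (A := A) (B := B) (L := L) σ
    have h3 := cc_nonneg (Z := Zf riemannZeta A B) (u := uu L) ww_nonneg σ
    show cc (Zf riemannZeta A B) (uu L) ww σ ^ 2 ≤
      4 * Ys (Zf riemannZeta A B) (uu L) ww (GJ 2 1) σ ^ 2
    have h4 := pow_le_pow_left₀ h3 h2 2
    linarith [h4, (by ring : (2 * Ys (Zf riemannZeta A B) (uu L) ww (GJ 2 1) σ) ^ 2 =
      4 * Ys (Zf riemannZeta A B) (uu L) ww (GJ 2 1) σ ^ 2)]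
  refine h1.trans (le_of_eq ?_)
  rw [integral_const_mul, sq_eq_PP (by norm_num) le_rfl hA]

/-- the parameters of a block -/
structure Par (a ε : ℝ) where
  /-- target -/
  τ : ℝ
  /-- scale -/
  R : ℝ
  /-- number of scales -/
  J : ℕ
  /-- cut off -/
  R' : ℝ
  /-- distance -/
  D : ℝ
  /-- error -/
  ε1 : ℝ
  hτ : 0 < τ
  hτε : 1000 * τ ≤ ε ^ 2
  hR2 : 2 ≤ R
  hJ : 1 ≤ J
  hJτ : 8 ≤ τ ^ 2 * J
  haR : Real.pi * (2 * a + 1 / 2) ≤ R
  hRa : 10 * (2 * a + 1 / 2) ^ 2 * (4 * a + 2) ≤ τ * R ^ 2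
  haR' : 2 * a ≤ R'
  hR'2 : 2 ≤ R'
  hRC : 64 * CJ R J ≤ τ * R'
  hD : 1 / 2 ≤ D
  hDC : 32 * phi R J 0 * CJ R J ≤ τ ^ 2 * D
  hε1 : 0 < ε1
  hε11 : ε1 ≤ 1
  hε1m : 4 * ε1 * (1 + 2 * phi R J 0 ^ 2) ≤ τ ^ 2

/-- parameters exist -/
lemma exists_par {a ε : ℝ} (_ha : 0 < a) (hε : 0 < ε) : Nonempty (Par a ε) := by
  set τ : ℝ := ε ^ 2 / 1000 with hτ
  have hτ0 : 0 < τ := by positivity
  obtain ⟨J, hJ1, hJτ⟩ : ∃ J : ℕ, 1 ≤ J ∧ 8 / τ ^ 2 ≤ J :=
    ⟨max 1 ⌈8 / τ ^ 2⌉₊, le_max_left _ _, (Nat.le_ceil _).trans (by exact_mod_cast le_max_right _ _)⟩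
  set R : ℝ := max 2 (max (Real.pi * (2 * a + 1 / 2))
    (10 * (2 * a + 1 / 2) ^ 2 * (4 * a + 2) / τ)) with hR
  have hR2 : 2 ≤ R := le_max_left _ _
  have hR0 : 0 < R := by linarith
  have haR : Real.pi * (2 * a + 1 / 2) ≤ R := (le_max_left _ _).trans (le_max_right _ _)
  have hRa : 10 * (2 * a + 1 / 2) ^ 2 * (4 * a + 2) ≤ τ * R ^ 2 := by
    have h1 : 10 * (2 * a + 1 / 2) ^ 2 * (4 * a + 2) / τ ≤ R :=
      (le_max_right _ _).trans (le_max_right _ _)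
    rw [div_le_iff₀ hτ0] at h1
    have h2 : R * 1 ≤ R * R := by gcongr; linarith
    nlinarith
  set C : ℝ := CJ R J with hC
  have hC0 : 0 < C := by rw [hC]; unfold CJ; positivity
  set m : ℝ := phi R J 0 with hm
  have hm0 : 0 ≤ m := phi_nonneg hR0 0
  set R' : ℝ := max (2 * a) (max 2 (64 * C / τ)) with hR'
  have hRC : 64 * C ≤ τ * R' := by
    have h1 : 64 * C / τ ≤ R' := (le_max_right _ _).trans (le_max_right _ _)
    rw [div_le_iff₀ hτ0] at h1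
    linarith
  set D : ℝ := 32 * m * C / τ ^ 2 + 1 with hD
  have hD0 : 1 / 2 ≤ D := by
    have : 0 ≤ 32 * m * C / τ ^ 2 := by positivity
    linarith
  have hDC : 32 * m * C ≤ τ ^ 2 * D := by
    have : τ ^ 2 * D = 32 * m * C + τ ^ 2 := by rw [hD]; field_simp
    have h2 : 0 < τ ^ 2 := by positivity
    linarith
  set ε1 : ℝ := min 1 (τ ^ 2 / (4 * (1 + 2 * m ^ 2))) with hε1
  have hε10 : 0 < ε1 := lt_min one_pos (by positivity)
  refine ⟨⟨τ, R, J, R', D, ε1, hτ0, ?_, hR2, hJ1, ?_, haR, hRa, le_max_left _ _,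
    (le_max_left _ _).trans (le_max_right _ _), hRC, hD0, hDC, hε10, min_le_left _ _, ?_⟩⟩
  · rw [hτ]; linarith
  · rw [div_le_iff₀ (by positivity)] at hJτ
    linarith
  · have h1 : ε1 ≤ τ ^ 2 / (4 * (1 + 2 * m ^ 2)) := min_le_right _ _
    rw [le_div_iff₀ (by positivity)] at h1
    linarith

/-- the smooth sum in one block of zeros -/
theorem one_block {a ε : ℝ} (ha : 0 < a) (p : Par a ε) {A B L M : ℝ}
    (hA : 1 ≤ A) (hAB : A ≤ B) (hL : 0 < L) (hM : M = (B - A) * L / (2 * Real.pi))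
    (hM1 : 2 * p.D ≤ M) (hM2 : 8 * phi p.R p.J 0 ^ 2 * p.D ≤ p.τ ^ 2 * M)
    (hNN : |(NN riemannZeta A B : ℝ) - M| ≤ p.ε1 * M)
    (hPP : |PP (fun α => phi p.R p.J α ^ 2) (1 / p.R) A B L -
      M * (phi p.R p.J 0 ^ 2 + ∫ α in (-(1 / p.R))..(1 / p.R), |α| * phi p.R p.J α ^ 2)| ≤ p.ε1 * M)
    (hPP2 : |PP (fun α => phi 2 1 α ^ 2) (1 / 2) A B L -
      M * (phi 2 1 0 ^ 2 + ∫ α in (-(1 / 2 : ℝ))..(1 / 2), |α| * phi 2 1 α ^ 2)| ≤ 1 * M) :
    (∫ σ in Icc (A * L / (2 * Real.pi)) (B * L / (2 * Real.pi)),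
      |Ys (Zf riemannZeta A B) (uu L) ww (gk (GJ p.R p.J) a p.R') σ - phi p.R p.J 0| ≤
        4 * p.τ * M) ∧
    (∑ s ∈ Zf riemannZeta A B, ww s *
      |Ys (Zf riemannZeta A B) (uu L) ww (gk (GJ p.R p.J) a p.R') (uu L s) - phi p.R p.J 0| ≤
        50 * p.τ * M) := by
  have hpi := Real.pi_pos
  have hR : 0 < p.R := by linarith [p.hR2]
  have hJ := p.hJ
  have hM0 : 0 ≤ M := by
    rw [hM]
    have : 0 ≤ B - A := by linarith
    positivity
  have hτ := p.hτ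
  have hK := ker_GJ hR hJ
  have hJ0 : (0 : ℝ) < p.J := by exact_mod_cast hJ
  have hDC := p.hDC
  have hε1m := p.hε1m
  have hRC := p.hRC
  set m : ℝ := phi p.R p.J 0 with hm
  have hm0 : 0 ≤ m := phi_nonneg hR 0
  have hmG : ∫ x, GJ p.R p.J x = m := GJ_mass hR hJ
  set C : ℝ := CJ p.R p.J with hC
  have hC0 : 0 ≤ C := hK.C0
  set α := A * L / (2 * Real.pi) with hα
  set β := B * L / (2 * Real.pi) with hβ
  have hβα : β - α = M := by rw [hM, hα, hβ]; ring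
  have hαβ : α ≤ β := by linarith
  set E := ∫ α in (-(1 / p.R))..(1 / p.R), |α| * phi p.R p.J α ^ 2 with hE
  have hE2 : E ≤ 2 / p.J := energy hR hJ
  set W : ℝ := ∑ s ∈ Zf riemannZeta A B, ww s with hW
  have hWN : W = (NN riemannZeta A B : ℝ) := sum_ww hA
  have hu : ∀ s ∈ Zf riemannZeta A B, α ≤ uu L s ∧ uu L s ≤ β := by
    intro s hs
    rw [mem_Zf good_zeta hA] at hs
    obtain ⟨_, _, h3, h4, _⟩ := hs
    unfold uu
    constructor
    · rw [hα]; gcongr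
    · rw [hβ]; gcongr
  rw [← hWN] at hNN
  obtain ⟨n1, n2⟩ := abs_le.1 hNN
  obtain ⟨p1, p2⟩ := abs_le.1 hPP
  obtain ⟨q1, q2⟩ := abs_le.1 hPP2
  have hD0 : 0 < p.D := by linarith [p.hD]
  have hvar := block_var' hK ww_nonneg hD0 hαβ hu
  rw [hmG, sq_eq_PP hR hJ hA, ← hW, hβα] at hvar
  have hW2 : W ≤ 2 * M := by
    have : p.ε1 * M ≤ 1 * M := mul_le_mul_of_nonneg_right p.hε11 hM0
    linarith
  have hW1 : (1 - p.ε1) * M ≤ W := by
    have : (1 - p.ε1) * M = M - p.ε1 * M := by ring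
    linarith
  -- the variance
  have hvar2 : ∫ σ in Icc (α - p.D) (β + p.D),
      (Ys (Zf riemannZeta A B) (uu L) ww (GJ p.R p.J) σ - m) ^ 2 ≤ p.τ ^ 2 * M := by
    refine hvar.trans ?_
    have e1 : PP (fun α => phi p.R p.J α ^ 2) (1 / p.R) A B L ≤ M * (m ^ 2 + E) + p.ε1 * M := by
      linarith
    have e2 : 2 * m * (W * (m - 2 * C / p.D)) = 2 * m ^ 2 * W - (4 * m * C / p.D) * W := by ring
    have e3 : 2 * m ^ 2 * ((1 - p.ε1) * M) ≤ 2 * m ^ 2 * W := by gcongr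
    have e4 : (4 * m * C / p.D) * W ≤ (4 * m * C / p.D) * (2 * M) := by gcongr
    have e5 : (4 * m * C / p.D) * (2 * M) = M * (8 * m * C / p.D) := by ring
    rw [e5] at e4
    have e7 : 2 * m ^ 2 * ((1 - p.ε1) * M) = 2 * m ^ 2 * M - 2 * m ^ 2 * (M * p.ε1) := by ring
    have e8 : M * (m ^ 2 + E) + p.ε1 * M = m ^ 2 * M + M * E + M * p.ε1 := by ring
    have e9 : m ^ 2 * (M + 2 * p.D) = m ^ 2 * M + 2 * m ^ 2 * p.D := by ring
    have e10 : 2 * m ^ 2 * M = m ^ 2 * M + m ^ 2 * M := by ring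
    rw [e8] at e1
    rw [e7] at e3
    rw [e2, e9]
    -- the four small terms
    have f1 : M * E ≤ 1 / 4 * (p.τ ^ 2 * M) := by
      have h2 : E * p.J ≤ 2 := by
        have := mul_le_mul_of_nonneg_right hE2 hJ0.le
        rwa [div_mul_cancel₀ _ hJ0.ne'] at this
      have h3 : E ≤ 1 / 4 * p.τ ^ 2 := by
        have h5 := p.hJτ
        have h4 : E * p.J ≤ (1 / 4 * p.τ ^ 2) * p.J := by linarith
        exact le_of_mul_le_mul_right h4 hJ0
      have h5 := mul_le_mul_of_nonneg_left h3 hM0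
      linarith
    have f2 : M * p.ε1 + 2 * m ^ 2 * (M * p.ε1) ≤ 1 / 4 * (p.τ ^ 2 * M) := by
      have h3 : p.ε1 * (1 + 2 * m ^ 2) ≤ 1 / 4 * p.τ ^ 2 := by linarith
      have h5 := mul_le_mul_of_nonneg_left h3 hM0
      linarith
    have f3 : M * (8 * m * C / p.D) ≤ 1 / 4 * (p.τ ^ 2 * M) := by
      have h3 : 8 * m * C / p.D ≤ 1 / 4 * p.τ ^ 2 := by
        rw [div_le_iff₀ hD0]
        linarith
      have h5 := mul_le_mul_of_nonneg_left h3 hM0
      linarith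
    have f4 : 2 * m ^ 2 * p.D ≤ 1 / 4 * (p.τ ^ 2 * M) := by linarith
    linarith
  -- the local counts
  have hP : ∫ σ, cc (Zf riemannZeta A B) (uu L) ww σ ^ 2 ≤ 28 * M := by
    refine (cc_sq_le hA).trans ?_
    have h1 : phi 2 1 0 = 2 := by
      unfold phi rho
      simp [tri]
    have h2 : ∫ α in (-(1 / 2 : ℝ))..(1 / 2), |α| * phi 2 1 α ^ 2 ≤ 2 := by
      have := energy (R := 2) (J := 1) (by norm_num) le_rfl
      simpa using this
    rw [h1] at q2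
    have h3 : M * ((2 : ℝ) ^ 2 + ∫ α in (-(1 / 2 : ℝ))..(1 / 2), |α| * phi 2 1 α ^ 2) ≤
        M * (2 ^ 2 + 2) := by gcongr
    linarith
  have hI : β - α + 2 * p.D ≤ 2 * M := by linarith
  -- the cut off
  set η : ℝ := 5 * (2 * a + 1 / 2) ^ 2 / p.R ^ 2 with hη
  have hη0 : 0 ≤ η := by positivity
  have hGη : ∀ x, |x| ≤ 2 * a + 1 / 2 → 1 - η ≤ GJ p.R p.J x := fun x hx =>
    GJ_ge hR hJ hx p.haR
  have hηa : (4 * a + 2) * η ≤ p.τ / 2 := by
    rw [hη]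
    have h1 := p.hRa
    have h2 : (4 * a + 2) * (5 * (2 * a + 1 / 2) ^ 2 / p.R ^ 2) =
      (5 * (2 * a + 1 / 2) ^ 2 * (4 * a + 2)) / p.R ^ 2 := by ring
    rw [h2, div_le_iff₀ (by positivity)]
    linarith
  have hR'0 : 0 < p.R' := by linarith [p.hR'2]
  have hA1 : ∫ x, FF (2 * C) (2 * a) p.R' η x ≤ p.τ := by
    refine (FF_mass (by positivity) (by positivity) hR'0).trans ?_
    have h1 : 2 * (2 * a) * η ≤ (4 * a + 2) * η := by
      apply mul_le_mul_of_nonneg_right _ hη0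
      linarith
    have h2 : 2 * (2 * C) / p.R' ≤ p.τ / 2 := by
      rw [div_le_iff₀ hR'0]
      linarith
    linarith
  have hA2 : ∫ x, FF (4 * (2 * C)) (2 * a + 1) (p.R' / 2) η x ≤ p.τ := by
    refine (FF_mass (by positivity) (by positivity) (by positivity)).trans ?_
    have h1 : 2 * (2 * a + 1) * η = (4 * a + 2) * η := by ring
    have h2 : 2 * (4 * (2 * C)) / (p.R' / 2) ≤ p.τ / 2 := by
      rw [div_le_iff₀ (by positivity)]
      linarith
    linarith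
  have hmain := block_both (m := m) (κ := p.τ) (P := 28) (A1 := p.τ) (A2 := p.τ)
    (g := gk (GJ p.R p.J) a p.R') hK ww_nonneg p.hD hαβ hu hτ hI hvar2 hP hW2
    (gk_cont hK) (gk_diff hK (fun x => GJ_le_one hJ x) ha p.haR' hη0 hGη)
    (FF_int (by positivity)) hA1 hτ.le (FF_int (by positivity))
    (FF_nonneg (by positivity) hη0) (fun x y hxy => FF_comp (by positivity) hη0 p.hR'2 hxy) hA2
  have hτM : 0 ≤ p.τ * M := by positivity
  constructor
  · refine hmain.1.trans ?_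
    linarith
  · refine hmain.2.trans ?_
    linarith

end Pool.Agent.Helper65.NR
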