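import Mathlib

set_option autoImplicit false

/-! # Smooth sums over points and counts in windows: the abstract part -/

namespace Pool.Agent.Helper65.NR

open MeasureTheory Set Filter Topology

/-- tail of a function with inverse square decay -/
lemma tail_inv {C D : ℝ} (hD : 0 < D) {G : ℝ → ℝ} (hGm : Continuous G)
    (hG0 : ∀ x, 0 ≤ G x) (hGC : ∀ x, G x ≤ C / (1 + x ^ 2)) (hC : 0 ≤ C) :
    ∫ x in {x : ℝ | D < |x|}, G x ≤ 2 * C / D := by
  have hGi : Integrable G := by
    refine (integrable_inv_one_add_sq.const_mul C).mono' hGm.aestronglyMeasurable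
      (Eventually.of_forall fun x => ?_)
    rw [Real.norm_of_nonneg (hG0 x), ← div_eq_mul_inv]
    exact hGC x
  have hs : {x : ℝ | D < |x|} = Iio (-D) ∪ Ioi D := by
    ext x
    simp only [mem_ofPred_eq, mem_union, mem_Iio, mem_Ioi, lt_abs]
    constructor
    · rintro (h | h)
      · right; exact h
      · left; linarith
    · rintro (h | h)
      · right; linarith
      · left; exact h
  have hdisj : Disjoint (Iio (-D)) (Ioi D) := by
    rw [Set.disjoint_left]
    intro x h1 h2
    simp only [mem_Iio, mem_Ioi] at h1 h2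
    linarith
  rw [hs, setIntegral_union hdisj measurableSet_Ioi hGi.integrableOn hGi.integrableOn]
  have key : ∀ F : ℝ → ℝ, Integrable F → (∀ x, 0 ≤ F x) → (∀ x, F x ≤ C / (1 + x ^ 2)) →
      ∫ x in Ioi D, F x ≤ C / D := by
    intro F hF h0 h1
    have h2 : IntegrableOn (fun x : ℝ => C * x ^ (-2 : ℝ)) (Ioi D) :=
      (integrableOn_Ioi_rpow_of_lt (by norm_num) hD).const_mul C
    have h3 : ∫ x in Ioi D, F x ≤ ∫ x in Ioi D, C * x ^ (-2 : ℝ) := by
      refine setIntegral_mono_on hF.integrableOn h2 measurableSet_Ioi fun x hx => ?_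
      have hx : D < x := hx
      have hx0 : 0 < x := hD.trans hx
      refine (h1 x).trans ?_
      rw [Real.rpow_neg hx0.le, ← div_eq_mul_inv]
      have : (x : ℝ) ^ (2 : ℝ) = x ^ 2 := by norm_cast
      rw [this]
      apply div_le_div_of_nonneg_left hC (by positivity)
      linarith
    refine h3.trans (le_of_eq ?_)
    rw [integral_const_mul, integral_Ioi_rpow_of_lt (by norm_num) hD]
    have : D ^ (-2 + 1 : ℝ) = 1 / D := by
      rw [show (-2 + 1 : ℝ) = -1 by norm_num, Real.rpow_neg hD.le, Real.rpow_one, one_div]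
    rw [this]
    norm_num
    rw [div_eq_mul_inv]
  have h1 := key G hGi hG0 hGC
  have h2 : ∫ x in Iio (-D), G x = ∫ x in Ioi D, G (-x) := by
    rw [← integral_Iic_eq_integral_Iio]
    have := integral_comp_neg_Ioi (c := D) (f := G)
    rw [this]
  have h3 := key (fun x => G (-x)) hGi.comp_neg (fun x => hG0 _) (fun x => by
    have := hGC (-x)
    rwa [neg_sq] at this)
  rw [h2]
  have : 2 * C / D = C / D + C / D := by ring
  rw [this]
  exact add_le_add h3 h1

end Pool.Agent.Helper65.NR
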