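import Pool.Agent.Helper65.NR.Abs

set_option autoImplicit false

/-! # Smooth sums over points and counts in windows: the abstract part, continued -/

namespace Pool.Agent.Helper65.NR

open MeasureTheory Set Filter Topology

/-- a nonnegative continuous kernel with inverse square decay -/
structure Ker (G : ℝ → ℝ) (C : ℝ) : Prop where
  cont : Continuous G
  nonneg : ∀ x, 0 ≤ G x
  le : ∀ x, G x ≤ C / (1 + x ^ 2)
  C0 : 0 ≤ C

variable {G : ℝ → ℝ} {C : ℝ}

lemma Ker.int (h : Ker G C) : Integrable G := by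
  refine (integrable_inv_one_add_sq.const_mul C).mono' h.cont.aestronglyMeasurable
    (Eventually.of_forall fun x => ?_)
  rw [Real.norm_of_nonneg (h.nonneg x), ← div_eq_mul_inv]
  exact h.le x

lemma Ker.le_C (h : Ker G C) (x : ℝ) : G x ≤ C := by
  refine (h.le x).trans ?_
  apply div_le_self h.C0
  nlinarith [sq_nonneg x]

lemma Ker.int_shift (h : Ker G C) (u : ℝ) : Integrable fun σ => G (u - σ) :=
  h.int.comp_sub_left u

lemma Ker.int_shift_eq (_h : Ker G C) (u : ℝ) : ∫ σ, G (u - σ) = ∫ x, G x :=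
  integral_sub_left_eq_self G volume u

/-- the tail of a shifted kernel -/
lemma Ker.tail (h : Ker G C) {D : ℝ} (hD : 0 < D) (u : ℝ) :
    ∫ σ in {σ : ℝ | D < |u - σ|}, G (u - σ) ≤ 2 * C / D := by
  have hm : MeasurableSet {σ : ℝ | D < |u - σ|} :=
    measurableSet_lt measurable_const (by fun_prop)
  have hm2 : MeasurableSet {x : ℝ | D < |x|} :=
    measurableSet_lt measurable_const (by fun_prop)
  have e1 : ∫ σ in {σ : ℝ | D < |u - σ|}, G (u - σ) =
      ∫ σ, ({x : ℝ | D < |x|}.indicator G) (u - σ) := by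
    rw [← integral_indicator hm]
    rfl
  rw [e1, integral_sub_left_eq_self ({x : ℝ | D < |x|}.indicator G) volume u,
    integral_indicator hm2]
  exact tail_inv hD h.cont h.nonneg h.le h.C0

/-- the mass of a kernel in a large interval around all points -/
lemma Ker.mass (h : Ker G C) {D α β u : ℝ} (hD : 0 < D) (h1 : α ≤ u) (h2 : u ≤ β) :
    (∫ x, G x) - 2 * C / D ≤ ∫ σ in Icc (α - D) (β + D), G (u - σ) := by
  have e1 := integral_add_compl (μ := volume) (s := Icc (α - D) (β + D)) measurableSet_Icc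
    (h.int_shift u)
  have e2 : ∫ σ in (Icc (α - D) (β + D))ᶜ, G (u - σ) ≤
      ∫ σ in {σ : ℝ | D < |u - σ|}, G (u - σ) := by
    refine setIntegral_mono_set (h.int_shift u).integrableOn
      (Eventually.of_forall fun σ => h.nonneg _) ?_
    refine Filter.Eventually.of_forall fun σ hσ => ?_
    have hσ : σ ∉ Icc (α - D) (β + D) := hσ
    show D < |u - σ|
    rw [mem_Icc, not_and_or, not_le, not_le] at hσ
    rw [lt_abs]
    rcases hσ with hσ | hσ
    · left; linarith
    · right; linarith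
  have e3 := h.tail hD u
  rw [h.int_shift_eq u] at e1
  linarith

variable {ι : Type*} {Z : Finset ι} {u w : ι → ℝ}

/-- the smooth sum over the points -/
noncomputable def Ys (Z : Finset ι) (u w : ι → ℝ) (G : ℝ → ℝ) (σ : ℝ) : ℝ :=
  ∑ i ∈ Z, w i * G (u i - σ)

lemma Ys_nonneg (h : Ker G C) (hw : ∀ i, 0 ≤ w i) (σ : ℝ) : 0 ≤ Ys Z u w G σ :=
  Finset.sum_nonneg fun i _ => mul_nonneg (hw i) (h.nonneg _)

lemma Ys_cont (h : Ker G C) : Continuous (Ys Z u w G) := by
  unfold Ys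
  have := h.cont
  fun_prop

lemma Ys_int (h : Ker G C) : Integrable (Ys Z u w G) :=
  integrable_finsetSum _ fun i _ => (h.int_shift (u i)).const_mul (w i)

lemma Ys_le (h : Ker G C) (hw : ∀ i, 0 ≤ w i) (σ : ℝ) : Ys Z u w G σ ≤ C * ∑ i ∈ Z, w i := by
  unfold Ys
  rw [Finset.mul_sum]
  refine Finset.sum_le_sum fun i _ => ?_
  rw [mul_comm C]
  exact mul_le_mul_of_nonneg_left (h.le_C _) (hw i)

lemma Ys_sq_int (h : Ker G C) (hw : ∀ i, 0 ≤ w i) : Integrable fun σ => Ys Z u w G σ ^ 2 := by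
  refine ((Ys_int (Z := Z) (u := u) (w := w) h).const_mul (C * ∑ i ∈ Z, w i)).mono'
    ((Ys_cont h).pow 2).aestronglyMeasurable (Eventually.of_forall fun σ => ?_)
  rw [Real.norm_of_nonneg (sq_nonneg _), pow_two]
  exact mul_le_mul_of_nonneg_right (Ys_le h hw σ) (Ys_nonneg h hw σ)

lemma pair_int (h : Ker G C) (x y : ℝ) : Integrable fun σ => G (x - σ) * G (y - σ) := by
  refine ((h.int_shift y).const_mul C).mono'
    ((by have := h.cont; fun_prop : Continuous fun σ => G (x - σ) * G (y - σ))).aestronglyMeasurable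
    (Eventually.of_forall fun σ => ?_)
  rw [Real.norm_of_nonneg (mul_nonneg (h.nonneg _) (h.nonneg _))]
  exact mul_le_mul_of_nonneg_right (h.le_C _) (h.nonneg _)

lemma Ys_sq (h : Ker G C) : ∫ σ, Ys Z u w G σ ^ 2 =
    ∑ i ∈ Z, ∑ j ∈ Z, w i * w j * ∫ σ, G (u i - σ) * G (u j - σ) := by
  have e1 : (fun σ => Ys Z u w G σ ^ 2) = fun σ => ∑ i ∈ Z, ∑ j ∈ Z,
      w i * w j * (G (u i - σ) * G (u j - σ)) := by
    funext σ
    unfold Ys
    rw [pow_two, Finset.sum_mul_sum]
    refine Finset.sum_congr rfl fun i _ => Finset.sum_congr rfl fun j _ => ?_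
    ring
  rw [e1, integral_finsetSum]
  swap
  · intro i _
    exact integrable_finsetSum _ fun j _ => (pair_int h _ _).const_mul _
  refine Finset.sum_congr rfl fun i _ => ?_
  rw [integral_finsetSum]
  swap
  · intro j _
    exact (pair_int h _ _).const_mul _
  refine Finset.sum_congr rfl fun j _ => ?_
  rw [integral_const_mul]

/-- the variance of the smooth sum over a neighbourhood of a block -/
theorem block_var' (h : Ker G C) (hw : ∀ i, 0 ≤ w i) {α β D : ℝ} (hD : 0 < D) (hαβ : α ≤ β)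
    (hu : ∀ i ∈ Z, α ≤ u i ∧ u i ≤ β) :
    ∫ σ in Icc (α - D) (β + D), (Ys Z u w G σ - ∫ x, G x) ^ 2 ≤
      (∫ σ, Ys Z u w G σ ^ 2) - 2 * (∫ x, G x) * ((∑ i ∈ Z, w i) * ((∫ x, G x) - 2 * C / D)) +
        (∫ x, G x) ^ 2 * (β - α + 2 * D) := by
  set m : ℝ := ∫ x, G x with hm
  have hm0 : 0 ≤ m := integral_nonneg h.nonneg
  set I : Set ℝ := Icc (α - D) (β + D) with hI
  have i1 : IntegrableOn (fun σ => Ys Z u w G σ ^ 2) I := (Ys_sq_int h hw).integrableOn
  have i2 : IntegrableOn (fun σ => Ys Z u w G σ) I := (Ys_int h).integrableOn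
  have i3 : IntegrableOn (fun _ : ℝ => m ^ 2) I :=
    integrableOn_const (by rw [Real.volume_Icc]; exact ENNReal.ofReal_ne_top)
  have e0 : (fun σ => (Ys Z u w G σ - m) ^ 2) =
      fun σ => (Ys Z u w G σ ^ 2 - (2 * m) * Ys Z u w G σ) + m ^ 2 := by
    funext σ; ring
  have h2 : ∫ σ in I, (Ys Z u w G σ - m) ^ 2 = (∫ σ in I, Ys Z u w G σ ^ 2) -
      2 * m * (∫ σ in I, Ys Z u w G σ) + m ^ 2 * (β - α + 2 * D) := by
    have k1 : ∫ σ in I, ((Ys Z u w G σ ^ 2 - (2 * m) * Ys Z u w G σ) + m ^ 2) =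
        (∫ σ in I, (Ys Z u w G σ ^ 2 - (2 * m) * Ys Z u w G σ)) + ∫ σ in I, m ^ 2 :=
      integral_add (i1.sub (i2.const_mul (2 * m))) i3
    have k2 : ∫ σ in I, (Ys Z u w G σ ^ 2 - (2 * m) * Ys Z u w G σ) =
        (∫ σ in I, Ys Z u w G σ ^ 2) - ∫ σ in I, (2 * m) * Ys Z u w G σ :=
      integral_sub i1 (i2.const_mul (2 * m))
    have k3 : ∫ σ in I, m ^ 2 = m ^ 2 * (β - α + 2 * D) := by
      rw [integral_const, smul_eq_mul, Measure.real, Measure.restrict_apply_univ, hI,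
        Real.volume_Icc, ENNReal.toReal_ofReal (by linarith)]
      ring
    rw [e0, k1, k2, k3, integral_const_mul]
  have h3 : ∫ σ in I, Ys Z u w G σ ^ 2 ≤ ∫ σ, Ys Z u w G σ ^ 2 :=
    setIntegral_le_integral (Ys_sq_int h hw) (Eventually.of_forall fun σ => sq_nonneg _)
  have h4 : (∑ i ∈ Z, w i) * (m - 2 * C / D) ≤ ∫ σ in I, Ys Z u w G σ := by
    unfold Ys
    rw [integral_finsetSum _ fun i _ => ((h.int_shift (u i)).const_mul (w i)).integrableOn,
      Finset.sum_mul]
    refine Finset.sum_le_sum fun i hi => ?_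
    rw [integral_const_mul]
    exact mul_le_mul_of_nonneg_left (h.mass hD (hu i hi).1 (hu i hi).2) (hw i)
  have h5 : 2 * m * ((∑ i ∈ Z, w i) * (m - 2 * C / D)) ≤ 2 * m * ∫ σ in I, Ys Z u w G σ :=
    mul_le_mul_of_nonneg_left h4 (by positivity)
  linarith

end Pool.Agent.Helper65.NR
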