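import Pool.Agent.Helper65.NR.Kern2

set_option autoImplicit false

/-! # Pair sums and local averages -/

namespace Pool.Agent.Helper65.NR

open MeasureTheory Set Filter Topology

variable {ι : Type*} {Z : Finset ι} {u w : ι → ℝ}

/-- the indicator function of the unit interval around `x` -/
noncomputable def bx (x σ : ℝ) : ℝ := (Icc (x - 1 / 2) (x + 1 / 2)).indicator (fun _ => (1 : ℝ)) σ

/-- the number of points near `σ` -/
noncomputable def cc (Z : Finset ι) (u w : ι → ℝ) (σ : ℝ) : ℝ := ∑ i ∈ Z, w i * bx (u i) σ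

lemma bx_nonneg (x σ : ℝ) : 0 ≤ bx x σ := indicator_nonneg (fun _ _ => zero_le_one) _

lemma bx_le_one (x σ : ℝ) : bx x σ ≤ 1 := indicator_le_self' (fun _ _ => zero_le_one) _

lemma bx_meas (x : ℝ) : Measurable (bx x) := measurable_const.indicator measurableSet_Icc

lemma bx_int (x : ℝ) : Integrable (bx x) := by
  unfold bx
  rw [integrable_indicator_iff measurableSet_Icc]
  exact integrableOn_const (by rw [Real.volume_Icc]; exact ENNReal.ofReal_ne_top)

lemma cc_nonneg (hw : ∀ i, 0 ≤ w i) (σ : ℝ) : 0 ≤ cc Z u w σ :=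
  Finset.sum_nonneg fun i _ => mul_nonneg (hw i) (bx_nonneg _ _)

lemma cc_le (hw : ∀ i, 0 ≤ w i) (σ : ℝ) : cc Z u w σ ≤ ∑ i ∈ Z, w i :=
  Finset.sum_le_sum fun i _ => mul_le_of_le_one_right (hw i) (bx_le_one _ _)

lemma cc_meas : Measurable (cc Z u w) := by
  unfold cc
  exact Finset.measurable_fun_sum _ fun i _ => (bx_meas (u i)).const_mul (w i)

lemma cc_int : Integrable (cc Z u w) :=
  integrable_finsetSum _ fun i _ => (bx_int (u i)).const_mul (w i)

lemma cc_mul_int (hw : ∀ i, 0 ≤ w i) (v : ℝ) : Integrable fun σ => cc Z u w σ * cc Z u w (σ + v) := by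
  refine ((cc_int (Z := Z) (u := u) (w := w)).const_mul (∑ i ∈ Z, w i)).mono'
    (cc_meas.mul (cc_meas.comp (measurable_id.add_const v))).aestronglyMeasurable
    (Eventually.of_forall fun σ => ?_)
  have h1 := cc_nonneg (Z := Z) (u := u) hw σ
  have h2 := cc_nonneg (Z := Z) (u := u) hw (σ + v)
  have h3 := cc_le (Z := Z) (u := u) hw (σ + v)
  rw [Real.norm_of_nonneg (mul_nonneg h1 h2), mul_comm]
  exact mul_le_mul_of_nonneg_right h3 h1

lemma cc_sq_int (hw : ∀ i, 0 ≤ w i) : Integrable fun σ => cc Z u w σ ^ 2 := by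
  have := cc_mul_int (Z := Z) (u := u) hw 0
  simp only [add_zero] at this
  simpa only [pow_two] using this

/-- overlap of two unit intervals -/
lemma bx_overlap (x y v : ℝ) : ∫ σ, bx x σ * bx y (σ + v) = tri (v - (y - x)) := by
  have h1 : (fun σ => bx x σ * bx y (σ + v)) =
      (Icc (max (x - 1 / 2) (y - v - 1 / 2)) (min (x + 1 / 2) (y - v + 1 / 2))).indicator
        (fun _ => (1 : ℝ)) := by
    funext σ
    unfold bx
    by_cases h : σ ∈ Icc (max (x - 1 / 2) (y - v - 1 / 2)) (min (x + 1 / 2) (y - v + 1 / 2))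
    · rw [indicator_of_mem h]
      obtain ⟨h2, h3⟩ := h
      rw [max_le_iff] at h2
      rw [le_min_iff] at h3
      rw [indicator_of_mem (mem_Icc.2 ⟨h2.1, h3.1⟩),
        indicator_of_mem (mem_Icc.2 ⟨by linarith [h2.2], by linarith [h3.2]⟩), mul_one]
    · rw [indicator_of_notMem h]
      rw [mem_Icc, max_le_iff, le_min_iff] at h
      by_cases h2 : σ ∈ Icc (x - 1 / 2) (x + 1 / 2)
      · have h3 : σ + v ∉ Icc (y - 1 / 2) (y + 1 / 2) := by
          intro h4
          exact h ⟨⟨h2.1, by linarith [h4.1]⟩, h2.2, by linarith [h4.2]⟩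
        rw [indicator_of_notMem h3, mul_zero]
      · rw [indicator_of_notMem h2, zero_mul]
  rw [h1, integral_indicator measurableSet_Icc, integral_const, smul_eq_mul, mul_one,
    Measure.real, Measure.restrict_apply_univ, Real.volume_Icc]
  have h2 : min (x + 1 / 2) (y - v + 1 / 2) - max (x - 1 / 2) (y - v - 1 / 2) =
      1 - |v - (y - x)| := by
    rcases le_total (x + 1 / 2) (y - v + 1 / 2) with h | h
    · rw [min_eq_left h, max_eq_right (by linarith), abs_of_nonpos (by linarith)]
      ring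
    · rw [min_eq_right h, max_eq_left (by linarith), abs_of_nonneg (by linarith)]
      ring
  rw [h2]
  unfold tri
  rcases le_total 0 (1 - |v - (y - x)|) with h | h
  · rw [ENNReal.toReal_ofReal h, max_eq_right h]
  · rw [ENNReal.ofReal_of_nonpos h, max_eq_left h]
    simp

lemma tri_int : Integrable tri := by
  have h : tri = (Icc (-1 : ℝ) 1).indicator tri := by
    funext x
    by_cases hx : x ∈ Icc (-1 : ℝ) 1
    · rw [indicator_of_mem hx]
    · rw [indicator_of_notMem hx]
      apply tri_zero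
      by_contra hcon
      push Not at hcon
      exact hx (mem_Icc.2 (abs_le.1 hcon.le))
  rw [h, integrable_indicator_iff measurableSet_Icc]
  exact tri_cont.integrableOn_Icc

lemma tri_mass : ∫ v, tri v = 1 := by
  have h1 : ∫ σ, bx 0 σ = 1 := by
    unfold bx
    rw [integral_indicator measurableSet_Icc, integral_const, smul_eq_mul, mul_one,
      Measure.real, Measure.restrict_apply_univ, Real.volume_Icc]
    norm_num
  have h := fejer_scale (ρ := 1) (μ := 1) one_pos (by norm_num) 0
  simp only [mul_zero, Real.cos_zero, mul_one, one_mul, zero_div, Real.sinc_zero, one_pow] at h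
  rw [← h, intervalIntegral.integral_of_le (by norm_num), ← integral_Icc_eq_integral_Ioc]
  rw [← integral_indicator measurableSet_Icc]
  refine integral_congr_ae (Eventually.of_forall fun x => ?_)
  show tri x = (Icc (-1 : ℝ) 1).indicator tri x
  by_cases hx : x ∈ Icc (-1 : ℝ) 1
  · rw [indicator_of_mem hx]
  · rw [indicator_of_notMem hx]
    apply tri_zero
    by_contra hcon
    push Not at hcon
    exact hx (mem_Icc.2 (abs_le.1 hcon.le))

/-- the correlation of the local counts is at most their mean square -/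
lemma cc_corr (hw : ∀ i, 0 ≤ w i) (v : ℝ) :
    ∫ σ, cc Z u w σ * cc Z u w (σ + v) ≤ ∫ σ, cc Z u w σ ^ 2 := by
  have i1 := cc_sq_int (Z := Z) (u := u) hw
  have i2 : Integrable fun σ => cc Z u w (σ + v) ^ 2 := i1.comp_add_right v
  have h1 : ∫ σ, cc Z u w σ * cc Z u w (σ + v) ≤
      ∫ σ, (1 / 2 * cc Z u w σ ^ 2 + 1 / 2 * cc Z u w (σ + v) ^ 2) := by
    refine integral_mono (cc_mul_int hw v) ((i1.const_mul _).add (i2.const_mul _)) fun σ => ?_
    show cc Z u w σ * cc Z u w (σ + v) ≤ 1 / 2 * cc Z u w σ ^ 2 + 1 / 2 * cc Z u w (σ + v) ^ 2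
    nlinarith [sq_nonneg (cc Z u w σ - cc Z u w (σ + v))]
  refine h1.trans (le_of_eq ?_)
  rw [integral_add (i1.const_mul _) (i2.const_mul _), integral_const_mul, integral_const_mul,
    integral_add_right_eq_self (fun σ => cc Z u w σ ^ 2) v]
  ring

lemma cc_corr_eq (v : ℝ) : ∫ σ, cc Z u w σ * cc Z u w (σ + v) =
    ∑ i ∈ Z, ∑ j ∈ Z, w i * w j * tri (v - (u j - u i)) := by
  have e1 : (fun σ => cc Z u w σ * cc Z u w (σ + v)) = fun σ => ∑ i ∈ Z, ∑ j ∈ Z,
      w i * w j * (bx (u i) σ * bx (u j) (σ + v)) := by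
    funext σ
    unfold cc
    rw [Finset.sum_mul_sum]
    refine Finset.sum_congr rfl fun i _ => Finset.sum_congr rfl fun j _ => ?_
    ring
  have hi : ∀ i j, Integrable fun σ => bx (u i) σ * bx (u j) (σ + v) := by
    intro i j
    refine (bx_int (u i)).mono'
      ((bx_meas _).mul ((bx_meas _).comp (measurable_id.add_const v))).aestronglyMeasurable
      (Eventually.of_forall fun σ => ?_)
    rw [Real.norm_of_nonneg (mul_nonneg (bx_nonneg _ _) (bx_nonneg _ _))]
    exact mul_le_of_le_one_right (bx_nonneg _ _) (bx_le_one _ _)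
  rw [e1, integral_finsetSum]
  swap
  · intro i _
    exact integrable_finsetSum _ fun j _ => (hi i j).const_mul _
  refine Finset.sum_congr rfl fun i _ => ?_
  rw [integral_finsetSum]
  swap
  · intro j _
    exact (hi i j).const_mul _
  refine Finset.sum_congr rfl fun j _ => ?_
  rw [integral_const_mul, bx_overlap]

/-- **Schur's test for pair sums** -/
theorem schur (hw : ∀ i, 0 ≤ w i) {F Fs : ℝ → ℝ} (hFs : Integrable Fs)
    (hFs0 : ∀ x, 0 ≤ Fs x) (hFF : ∀ x y, |x - y| ≤ 1 → F x ≤ Fs y) :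
    ∑ i ∈ Z, ∑ j ∈ Z, w i * w j * F (u j - u i) ≤ (∫ v, Fs v) * ∫ σ, cc Z u w σ ^ 2 := by
  have hti : ∀ x : ℝ, Integrable fun v => tri (v - x) := fun x => tri_int.comp_sub_right x
  have htm : ∀ x : ℝ, ∫ v, tri (v - x) = 1 := fun x => by
    rw [integral_sub_right_eq_self tri x, tri_mass]
  have hFt : ∀ x : ℝ, Integrable fun v => Fs v * tri (v - x) := fun x => by
    have h2 : Continuous fun v => tri (v - x) := by
      have := tri_cont
      fun_prop
    refine hFs.norm.mono' (hFs.aestronglyMeasurable.mul h2.aestronglyMeasurable)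
      (Eventually.of_forall fun v => ?_)
    rw [norm_mul, Real.norm_of_nonneg (tri_nonneg _)]
    exact mul_le_of_le_one_right (norm_nonneg _) (tri_le_one _)
  have h1 : ∀ x : ℝ, F x ≤ ∫ v, Fs v * tri (v - x) := by
    intro x
    have h2 : F x = ∫ v, F x * tri (v - x) := by
      rw [integral_const_mul, htm, mul_one]
    rw [h2]
    refine integral_mono ((hti x).const_mul _) (hFt x) fun v => ?_
    show F x * tri (v - x) ≤ Fs v * tri (v - x)
    rcases le_total 1 |v - x| with h | h
    · rw [tri_zero h, mul_zero, mul_zero]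
    · refine mul_le_mul_of_nonneg_right (hFF x v ?_) (tri_nonneg _)
      rw [abs_sub_comm]; exact h
  have h2 : ∑ i ∈ Z, ∑ j ∈ Z, w i * w j * F (u j - u i) ≤
      ∑ i ∈ Z, ∑ j ∈ Z, w i * w j * ∫ v, Fs v * tri (v - (u j - u i)) := by
    refine Finset.sum_le_sum fun i _ => Finset.sum_le_sum fun j _ => ?_
    exact mul_le_mul_of_nonneg_left (h1 _) (mul_nonneg (hw i) (hw j))
  refine h2.trans ?_
  have h3 : ∑ i ∈ Z, ∑ j ∈ Z, w i * w j * ∫ v, Fs v * tri (v - (u j - u i)) =
      ∫ v, Fs v * ∫ σ, cc Z u w σ * cc Z u w (σ + v) := by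
    have e1 : (fun v => Fs v * ∫ σ, cc Z u w σ * cc Z u w (σ + v)) =
        fun v => ∑ i ∈ Z, ∑ j ∈ Z, w i * w j * (Fs v * tri (v - (u j - u i))) := by
      funext v
      rw [cc_corr_eq, Finset.mul_sum]
      refine Finset.sum_congr rfl fun i _ => ?_
      rw [Finset.mul_sum]
      refine Finset.sum_congr rfl fun j _ => ?_
      ring
    rw [e1, integral_finsetSum]
    swap
    · intro i _
      exact integrable_finsetSum _ fun j _ => (hFt _).const_mul _
    refine Finset.sum_congr rfl fun i _ => ?_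
    rw [integral_finsetSum]
    swap
    · intro j _
      exact (hFt _).const_mul _
    refine Finset.sum_congr rfl fun j _ => ?_
    rw [integral_const_mul]
  rw [h3, ← integral_mul_const]
  have hP : 0 ≤ ∫ σ, cc Z u w σ ^ 2 := integral_nonneg fun σ => sq_nonneg _
  refine integral_mono_of_nonneg (Eventually.of_forall fun v => ?_) (hFs.mul_const _)
    (Eventually.of_forall fun v => ?_)
  · exact mul_nonneg (hFs0 v) (integral_nonneg fun σ => mul_nonneg (cc_nonneg hw _) (cc_nonneg hw _))
  · exact mul_le_mul_of_nonneg_left (cc_corr hw v) (hFs0 v)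

end Pool.Agent.Helper65.NR
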