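import Pool.Agent.Helper65.NR.Abs3

set_option autoImplicit false

/-! # The smooth sum, locally averaged, over a block and over the points -/

namespace Pool.Agent.Helper65.NR

open MeasureTheory Set Filter Topology

variable {ι : Type*} {Z : Finset ι} {u w : ι → ℝ} {G : ℝ → ℝ} {C : ℝ}

/-- local average of a kernel -/
noncomputable def box (G : ℝ → ℝ) (x : ℝ) : ℝ := ∫ v in (-(1 / 2 : ℝ))..(1 / 2), G (x + v)

lemma box_cont (hG : Continuous G) : Continuous (box G) := by
  unfold box
  exact intervalIntegral.continuous_parametric_intervalIntegral_of_continuous' (by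
    show Continuous (Function.uncurry fun x v => G (x + v))
    unfold Function.uncurry
    fun_prop) _ _

lemma box_mono {f : ℝ → ℝ} (hf : Continuous f) {x b : ℝ} (h : ∀ v, |v| ≤ 1 / 2 → f (x + v) ≤ b) :
    box f x ≤ b := by
  unfold box
  have h1 : ∫ v in (-(1 / 2 : ℝ))..(1 / 2), f (x + v) ≤ ∫ v in (-(1 / 2 : ℝ))..(1 / 2), b := by
    apply intervalIntegral.integral_mono_on (by norm_num)
    · exact Continuous.intervalIntegrable (by fun_prop) _ _
    · exact Continuous.intervalIntegrable (by fun_prop) _ _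
    · intro v hv
      exact h v (abs_le.2 hv)
  refine h1.trans (le_of_eq ?_)
  rw [intervalIntegral.integral_const, smul_eq_mul]
  ring

lemma box_mono' {f : ℝ → ℝ} (hf : Continuous f) {x b : ℝ} (h : ∀ v, |v| ≤ 1 / 2 → b ≤ f (x + v)) :
    b ≤ box f x := by
  unfold box
  have h1 : ∫ v in (-(1 / 2 : ℝ))..(1 / 2), b ≤ ∫ v in (-(1 / 2 : ℝ))..(1 / 2), f (x + v) := by
    apply intervalIntegral.integral_mono_on (by norm_num)
    · exact Continuous.intervalIntegrable (by fun_prop) _ _
    · exact Continuous.intervalIntegrable (by fun_prop) _ _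
    · intro v hv
      exact h v (abs_le.2 hv)
  refine le_trans (le_of_eq ?_) h1
  rw [intervalIntegral.integral_const, smul_eq_mul]
  ring

lemma ker_box (h : Ker G C) : Ker (box G) (2 * C) where
  cont := box_cont h.cont
  nonneg := fun x => box_mono' h.cont fun v _ => h.nonneg _
  le := fun x => box_mono h.cont fun v hv => by
    refine (h.le _).trans ?_
    have h0 := h.C0
    rw [div_le_div_iff₀ (by positivity) (by positivity)]
    obtain ⟨h1, h2⟩ := abs_le.1 hv
    have h3 : 1 + x ^ 2 ≤ 2 * (1 + (x + v) ^ 2) := by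
      nlinarith [sq_nonneg (x + v + v), sq_nonneg (x + 2 * v)]
    nlinarith
  C0 := by have := h.C0; positivity

lemma Ys_box (h : Ker G C) (σ : ℝ) : Ys Z u w (box G) σ =
    ∫ v in (-(1 / 2 : ℝ))..(1 / 2), Ys Z u w G (σ - v) := by
  unfold Ys box
  rw [intervalIntegral.integral_finsetSum]
  · refine Finset.sum_congr rfl fun i _ => ?_
    rw [intervalIntegral.integral_const_mul]
    congr 1
    refine intervalIntegral.integral_congr fun v _ => ?_
    show G (u i - σ + v) = G (u i - (σ - v))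
    congr 1
    ring
  · intro i _
    have := h.cont
    exact Continuous.intervalIntegrable (by fun_prop) _ _

lemma Ys_box_sub (h : Ker G C) (m σ : ℝ) : |Ys Z u w (box G) σ - m| ≤
    ∫ v in (-(1 / 2 : ℝ))..(1 / 2), |Ys Z u w G (σ - v) - m| := by
  have hc := Ys_cont (Z := Z) (u := u) (w := w) h
  have h1 : Ys Z u w (box G) σ - m = ∫ v in (-(1 / 2 : ℝ))..(1 / 2), (Ys Z u w G (σ - v) - m) := by
    rw [Ys_box h, intervalIntegral.integral_sub (Continuous.intervalIntegrable (by fun_prop) _ _)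
      (Continuous.intervalIntegrable (by fun_prop) _ _), intervalIntegral.integral_const,
      smul_eq_mul]
    ring
  rw [h1]
  exact intervalIntegral.abs_integral_le_integral_abs (by norm_num)

/-- averages over the block -/
lemma time_avg {f : ℝ → ℝ} (hf : Continuous f) (hf0 : ∀ x, 0 ≤ f x) {α β D : ℝ} (hD : 1 / 2 ≤ D)
    (hαβ : α ≤ β) :
    ∫ σ in α..β, (∫ v in (-(1 / 2 : ℝ))..(1 / 2), f (σ - v)) ≤
      ∫ τ in Icc (α - D) (β + D), f τ := by
  have hc : Continuous (Function.uncurry fun σ v : ℝ => f (σ - v)) := by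
    unfold Function.uncurry
    fun_prop
  rw [intervalIntegral_intervalIntegral_swap]
  swap
  · exact (hc.continuousOn.integrableOn_compact
      (isCompact_uIcc.prod isCompact_uIcc)).mono_set
      (Set.prod_mono uIoc_subset_uIcc uIoc_subset_uIcc)
  have h1 : ∀ v ∈ Icc (-(1 / 2 : ℝ)) (1 / 2), ∫ σ in α..β, f (σ - v) ≤
      ∫ τ in Icc (α - D) (β + D), f τ := by
    intro v hv
    rw [intervalIntegral.integral_comp_sub_right, intervalIntegral.integral_of_le (by linarith),
      ← integral_Icc_eq_integral_Ioc]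
    refine setIntegral_mono_set hf.integrableOn_Icc (Eventually.of_forall fun x => hf0 x)
      (Filter.Eventually.of_forall (Icc_subset_Icc ?_ ?_))
    · linarith [hv.2]
    · linarith [hv.1]
  have h2 : ∫ v in (-(1 / 2 : ℝ))..(1 / 2), (∫ σ in α..β, f (σ - v)) ≤
      ∫ v in (-(1 / 2 : ℝ))..(1 / 2), (∫ τ in Icc (α - D) (β + D), f τ) := by
    apply intervalIntegral.integral_mono_on (by norm_num)
    · apply Continuous.intervalIntegrable
      exact intervalIntegral.continuous_parametric_intervalIntegral_of_continuous' (by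
        show Continuous (Function.uncurry fun v σ => f (σ - v))
        unfold Function.uncurry
        fun_prop) _ _
    · exact Continuous.intervalIntegrable (by fun_prop) _ _
    · exact h1
  refine h2.trans (le_of_eq ?_)
  rw [intervalIntegral.integral_const, smul_eq_mul]
  ring

/-- averages over the points -/
lemma palm_avg {f : ℝ → ℝ} (hf : Continuous f) {α β D : ℝ} (hD : 1 / 2 ≤ D)
    (hu : ∀ i ∈ Z, α ≤ u i ∧ u i ≤ β) :
    ∑ i ∈ Z, w i * (∫ v in (-(1 / 2 : ℝ))..(1 / 2), f (u i - v)) =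
      ∫ τ in Icc (α - D) (β + D), f τ * cc Z u w τ := by
  have h1 : ∀ i ∈ Z, ∫ v in (-(1 / 2 : ℝ))..(1 / 2), f (u i - v) =
      ∫ τ in Icc (α - D) (β + D), f τ * bx (u i) τ := by
    intro i hi
    obtain ⟨h2, h3⟩ := hu i hi
    rw [intervalIntegral.integral_comp_sub_left, sub_neg_eq_add,
      intervalIntegral.integral_of_le (by linarith), ← integral_Icc_eq_integral_Ioc]
    have e1 : (fun τ => f τ * bx (u i) τ) =
        (Icc (u i - 1 / 2) (u i + 1 / 2)).indicator f := by
      funext τ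
      unfold bx
      by_cases h : τ ∈ Icc (u i - 1 / 2) (u i + 1 / 2)
      · rw [indicator_of_mem h, indicator_of_mem h, mul_one]
      · rw [indicator_of_notMem h, indicator_of_notMem h, mul_zero]
    rw [e1, setIntegral_indicator measurableSet_Icc]
    congr 2
    rw [eq_comm, inter_eq_right]
    exact Icc_subset_Icc (by linarith) (by linarith)
  rw [Finset.sum_congr rfl fun i hi => by rw [h1 i hi]]
  unfold cc
  have e2 : (fun τ => f τ * ∑ i ∈ Z, w i * bx (u i) τ) =
      fun τ => ∑ i ∈ Z, w i * (f τ * bx (u i) τ) := by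
    funext τ
    rw [Finset.mul_sum]
    refine Finset.sum_congr rfl fun i _ => ?_
    ring
  rw [e2, integral_finsetSum]
  · refine Finset.sum_congr rfl fun i _ => ?_
    rw [integral_const_mul]
  · intro i _
    refine Integrable.const_mul ?_ _
    refine (hf.norm.integrableOn_Icc (a := α - D) (b := β + D)).mono'
      (hf.aestronglyMeasurable.mul (bx_meas (u i)).aestronglyMeasurable)
      (Eventually.of_forall fun τ => ?_)
    rw [norm_mul, Real.norm_of_nonneg (bx_nonneg _ _)]
    exact mul_le_of_le_one_right (norm_nonneg _) (bx_le_one _ _)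

/-- **the main estimate for a block** -/
theorem block_both (h : Ker G C) (hw : ∀ i, 0 ≤ w i) {α β D m κ P M A1 A2 : ℝ}
    (hD : 1 / 2 ≤ D) (hαβ : α ≤ β) (hu : ∀ i ∈ Z, α ≤ u i ∧ u i ≤ β) (hκ : 0 < κ)
    (hI : β - α + 2 * D ≤ 2 * M)
    (hV : ∫ σ in Icc (α - D) (β + D), (Ys Z u w G σ - m) ^ 2 ≤ κ ^ 2 * M)
    (hP : ∫ σ, cc Z u w σ ^ 2 ≤ P * M) (hW : ∑ i ∈ Z, w i ≤ 2 * M)
    {g F Fs : ℝ → ℝ} (hg : Continuous g) (hgF : ∀ x, |g x - box G x| ≤ F x)
    (hFi : Integrable F) (hA1 : ∫ x, F x ≤ A1) (hA10 : 0 ≤ A1)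
    (hFs : Integrable Fs) (hFs0 : ∀ x, 0 ≤ Fs x) (hFF : ∀ x y, |x - y| ≤ 1 → F x ≤ Fs y)
    (hA2 : ∫ x, Fs x ≤ A2) :
    (∫ σ in Icc α β, |Ys Z u w g σ - m| ≤ (3 / 2 * κ + 2 * A1) * M) ∧
    (∑ i ∈ Z, w i * |Ys Z u w g (u i) - m| ≤ (κ * (1 + P) / 2 + A2 * P) * M) := by
  have hYc := Ys_cont (Z := Z) (u := u) (w := w) h
  set f : ℝ → ℝ := fun τ => |Ys Z u w G τ - m| with hf
  have hfc : Continuous f := by simp only [hf]; fun_prop
  have hf0 : ∀ x, 0 ≤ f x := fun x => abs_nonneg _
  set I : Set ℝ := Icc (α - D) (β + D) with hIdef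
  have hF0 : ∀ x, 0 ≤ F x := fun x => (abs_nonneg _).trans (hgF x)
  have hP0 : 0 ≤ ∫ σ, cc Z u w σ ^ 2 := integral_nonneg fun σ => sq_nonneg _
  have hsqi : IntegrableOn (fun σ => (Ys Z u w G σ - m) ^ 2) I :=
    (by fun_prop : Continuous fun σ => (Ys Z u w G σ - m) ^ 2).integrableOn_Icc
  -- pointwise
  have hpt : ∀ σ, |Ys Z u w g σ - m| ≤ (∫ v in (-(1 / 2 : ℝ))..(1 / 2), f (σ - v)) +
      ∑ i ∈ Z, w i * F (u i - σ) := by
    intro σ
    have h1 := Ys_box_sub (Z := Z) (u := u) (w := w) h m σ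
    have h2 : |Ys Z u w g σ - Ys Z u w (box G) σ| ≤ ∑ i ∈ Z, w i * F (u i - σ) := by
      unfold Ys
      rw [← Finset.sum_sub_distrib]
      refine (Finset.abs_sum_le_sum_abs _ _).trans (Finset.sum_le_sum fun i _ => ?_)
      rw [← mul_sub, abs_mul, abs_of_nonneg (hw i)]
      exact mul_le_mul_of_nonneg_left (hgF _) (hw i)
    have h3 := abs_sub_le (Ys Z u w g σ) (Ys Z u w (box G) σ) m
    simp only [hf]
    linarith
  constructor
  · have hsum : Integrable fun σ => ∑ i ∈ Z, w i * F (u i - σ) :=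
      integrable_finsetSum _ fun i _ => (hFi.comp_sub_left (u i)).const_mul (w i)
    have hgc : Continuous (Ys Z u w g) := by
      unfold Ys
      fun_prop
    have hvc : Continuous fun σ : ℝ => ∫ v in (-(1 / 2 : ℝ))..(1 / 2), f (σ - v) :=
      intervalIntegral.continuous_parametric_intervalIntegral_of_continuous' (by
        show Continuous (Function.uncurry fun σ v => f (σ - v))
        unfold Function.uncurry
        fun_prop) _ _
    have h1 : ∫ σ in Icc α β, |Ys Z u w g σ - m| ≤
        ∫ σ in Icc α β, ((∫ v in (-(1 / 2 : ℝ))..(1 / 2), f (σ - v)) +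
          ∑ i ∈ Z, w i * F (u i - σ)) :=
      setIntegral_mono_on (by fun_prop : Continuous fun σ => |Ys Z u w g σ - m|).integrableOn_Icc
        (hvc.integrableOn_Icc.add hsum.integrableOn) measurableSet_Icc fun σ _ => hpt σ
    refine h1.trans ?_
    rw [integral_add hvc.integrableOn_Icc hsum.integrableOn]
    have h2 : ∫ σ in Icc α β, (∫ v in (-(1 / 2 : ℝ))..(1 / 2), f (σ - v)) ≤ 3 / 2 * κ * M := by
      rw [integral_Icc_eq_integral_Ioc, ← intervalIntegral.integral_of_le hαβ]
      refine (time_avg hfc hf0 hD hαβ).trans ?_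
      have h3 : ∫ τ in I, f τ ≤ ∫ τ in I, (1 / (2 * κ) * (Ys Z u w G τ - m) ^ 2 + κ / 2) := by
        refine setIntegral_mono_on hfc.integrableOn_Icc ((hsqi.const_mul _).add
          (integrableOn_const (by rw [Real.volume_Icc]; exact ENNReal.ofReal_ne_top)))
          measurableSet_Icc fun τ _ => ?_
        simp only [hf]
        rw [← sq_abs]
        have : 0 ≤ 1 / (2 * κ) * (|Ys Z u w G τ - m| - κ) ^ 2 := by positivity
        have e : 1 / (2 * κ) * (|Ys Z u w G τ - m| - κ) ^ 2 =
            1 / (2 * κ) * |Ys Z u w G τ - m| ^ 2 + κ / 2 - |Ys Z u w G τ - m| := by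
          field_simp
          ring
        linarith
      refine h3.trans ?_
      have k1 : ∫ τ in I, (1 / (2 * κ) * (Ys Z u w G τ - m) ^ 2 + κ / 2) =
          (∫ τ in I, 1 / (2 * κ) * (Ys Z u w G τ - m) ^ 2) + ∫ τ in I, κ / 2 :=
        integral_add (hsqi.const_mul _)
          (integrableOn_const (by rw [Real.volume_Icc]; exact ENNReal.ofReal_ne_top))
      have k3 : ∫ τ in I, κ / 2 = κ / 2 * (β - α + 2 * D) := by
        rw [integral_const, smul_eq_mul, Measure.real, Measure.restrict_apply_univ, hIdef,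
          Real.volume_Icc, ENNReal.toReal_ofReal (by linarith)]
        ring
      rw [k1, k3, integral_const_mul]
      have k4 : 1 / (2 * κ) * (∫ τ in I, (Ys Z u w G τ - m) ^ 2) ≤ 1 / (2 * κ) * (κ ^ 2 * M) := by
        gcongr
      have k5 : 1 / (2 * κ) * (κ ^ 2 * M) = κ / 2 * M := by field_simp
      have k6 : κ / 2 * (β - α + 2 * D) ≤ κ / 2 * (2 * M) := by gcongr
      rw [k5] at k4
      linarith
    have h3 : ∫ σ in Icc α β, ∑ i ∈ Z, w i * F (u i - σ) ≤ 2 * A1 * M := by
      have k1 : ∫ σ in Icc α β, ∑ i ∈ Z, w i * F (u i - σ) ≤ ∫ σ, ∑ i ∈ Z, w i * F (u i - σ) :=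
        setIntegral_le_integral hsum (Eventually.of_forall fun σ =>
          Finset.sum_nonneg fun i _ => mul_nonneg (hw i) (hF0 _))
      refine k1.trans ?_
      rw [integral_finsetSum _ fun i _ => (hFi.comp_sub_left (u i)).const_mul (w i)]
      have k2 : ∀ i ∈ Z, ∫ σ, w i * F (u i - σ) ≤ w i * A1 := by
        intro i _
        rw [integral_const_mul, integral_sub_left_eq_self F volume (u i)]
        exact mul_le_mul_of_nonneg_left hA1 (hw i)
      refine (Finset.sum_le_sum k2).trans ?_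
      rw [← Finset.sum_mul]
      calc (∑ i ∈ Z, w i) * A1 ≤ (2 * M) * A1 := by gcongr
        _ = _ := by ring
    linarith
  · have h1 : ∑ i ∈ Z, w i * |Ys Z u w g (u i) - m| ≤
        ∑ i ∈ Z, w i * (∫ v in (-(1 / 2 : ℝ))..(1 / 2), f (u i - v)) +
        ∑ i ∈ Z, ∑ j ∈ Z, w i * w j * F (u j - u i) := by
      rw [← Finset.sum_add_distrib]
      refine Finset.sum_le_sum fun i _ => ?_
      have h2 := mul_le_mul_of_nonneg_left (hpt (u i)) (hw i)
      refine h2.trans (le_of_eq ?_)
      rw [mul_add, Finset.mul_sum]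
      congr 1
      refine Finset.sum_congr rfl fun j _ => ?_
      ring
    refine h1.trans ?_
    rw [palm_avg hfc hD hu]
    have hsch := schur (Z := Z) (u := u) hw hFs hFs0 hFF
    have hA20 : 0 ≤ A2 := (integral_nonneg hFs0).trans hA2
    have h2 : (∫ v, Fs v) * ∫ σ, cc Z u w σ ^ 2 ≤ A2 * (P * M) := by
      gcongr
    have h3 : ∫ τ in I, f τ * cc Z u w τ ≤ κ * (1 + P) / 2 * M := by
      have hcci : IntegrableOn (fun τ => cc Z u w τ ^ 2) I := (cc_sq_int hw).integrableOn
      have hfci : IntegrableOn (fun τ => f τ * cc Z u w τ) I := by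
        refine ((hfc.integrableOn_Icc (a := α - D) (b := β + D)).const_mul
          (∑ i ∈ Z, w i)).mono' (hfc.aestronglyMeasurable.mul cc_meas.aestronglyMeasurable)
          (Eventually.of_forall fun τ => ?_)
        rw [Real.norm_of_nonneg (mul_nonneg (hf0 _) (cc_nonneg hw _)), mul_comm]
        exact mul_le_mul_of_nonneg_right (cc_le hw τ) (hf0 _)
      have k0 : ∫ τ in I, f τ * cc Z u w τ ≤
          ∫ τ in I, (1 / (2 * κ) * (Ys Z u w G τ - m) ^ 2 + κ / 2 * cc Z u w τ ^ 2) := by
        refine setIntegral_mono_on hfci ((hsqi.const_mul _).add (hcci.const_mul _))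
          measurableSet_Icc fun τ _ => ?_
        simp only [hf]
        rw [← sq_abs (Ys Z u w G τ - m)]
        have : 0 ≤ 1 / (2 * κ) * (|Ys Z u w G τ - m| - κ * cc Z u w τ) ^ 2 := by positivity
        have e : 1 / (2 * κ) * (|Ys Z u w G τ - m| - κ * cc Z u w τ) ^ 2 =
            1 / (2 * κ) * |Ys Z u w G τ - m| ^ 2 + κ / 2 * cc Z u w τ ^ 2 -
              |Ys Z u w G τ - m| * cc Z u w τ := by
          field_simp
          ring
        linarith
      refine k0.trans ?_
      have k1 : ∫ τ in I, (1 / (2 * κ) * (Ys Z u w G τ - m) ^ 2 + κ / 2 * cc Z u w τ ^ 2) =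
          (∫ τ in I, 1 / (2 * κ) * (Ys Z u w G τ - m) ^ 2) + ∫ τ in I, κ / 2 * cc Z u w τ ^ 2 :=
        integral_add (hsqi.const_mul _) (hcci.const_mul _)
      rw [k1, integral_const_mul, integral_const_mul]
      have k2 : ∫ τ in I, cc Z u w τ ^ 2 ≤ P * M :=
        (setIntegral_le_integral (cc_sq_int hw)
          (Eventually.of_forall fun σ => sq_nonneg _)).trans hP
      have k4 : 1 / (2 * κ) * (∫ τ in I, (Ys Z u w G τ - m) ^ 2) ≤ 1 / (2 * κ) * (κ ^ 2 * M) := by
        gcongr
      have k5 : 1 / (2 * κ) * (κ ^ 2 * M) = κ / 2 * M := by field_simp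
      have k6 : κ / 2 * (∫ τ in I, cc Z u w τ ^ 2) ≤ κ / 2 * (P * M) := by gcongr
      rw [k5] at k4
      linarith
    linarith

end Pool.Agent.Helper65.NR
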