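import Pool.Agent.H345R2.A2.Smooth

set_option autoImplicit false

/-! # Pair sums and the number of zeros in almost all short intervals (adapted from
`Pool/Agent/H345R2/A2/Smooth.lean`) -/

open Complex Filter Topology Set MeasureTheory
open scoped BigOperators ComplexConjugate

namespace Pool.Agent.Helper65.NR

open H370 H370.A2 H370.AS H295SI

/-- under the Riemann hypothesis: pair sums in almost all short intervals, with the number of zeros
(after `H370.A2.almost_smooth`) -/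
theorem almost_both (hRH : RiemannHypothesis) (η0 μ ε : ℝ) (hη0 : 0 < η0)
    (hη1 : η0 < 1) (hμ : 0 < μ) (hgap : 2 * μ < 1 + η0)
    (hε : 0 < ε) (ψ : ℝ → ℝ) (K : ℝ) (hlip : ∀ x y, |ψ x - ψ y| ≤ K * |x - y|)
    (hz : ∀ x, μ ≤ |x| → ψ x = 0) (C : ℝ) (hC : ∀ x, |RR ψ μ x| * x ^ 2 ≤ C) :
    ∃ δ : ℝ, 0 < δ ∧ ∃ T0 : ℝ, 10 ≤ T0 ∧ ∀ T : ℝ, T0 ≤ T → ∀ H : ℝ,
      T ^ η0 ≤ H → H ≤ T / 8 →
      volume {t : ℝ | t ∈ Set.Icc T (2 * T) ∧
        ¬ (|(NN riemannZeta t (t + H) : ℝ) - H * Real.log T / (2 * Real.pi)| ≤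
            ε * (H * Real.log T / (2 * Real.pi)) ∧
          |PP ψ μ t (t + H) (Real.log T) -
            (H * Real.log T / (2 * Real.pi)) * (ψ 0 + ∫ α in (-μ)..μ, |α| * ψ α)| ≤
            ε * (H * Real.log T / (2 * Real.pi)))} ≤
        ENNReal.ofReal (T ^ (1 - δ)) := by
  have hK : 0 ≤ K := by
    have h1 := hlip 1 0
    have h2 := abs_nonneg (ψ 1 - ψ 0)
    simp at h1
    linarith
  have hψc : Continuous ψ := by
    have : LipschitzWith K.toNNReal ψ := by
      refine LipschitzWith.of_dist_le_mul fun x y => ?_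
      rw [Real.dist_eq, Real.dist_eq, Real.coe_toNNReal _ hK]
      exact hlip x y
    exact this.continuous
  have hC0 : 0 ≤ C := by
    have := hC 0
    simp at this
    exact this
  obtain ⟨Cw, hCw, hw⟩ := pair_weight good_zeta
  obtain ⟨δ, hδ, T0, hT0, h⟩ := almost_psi good_zeta lamC_norm (fun s hs _ => ld_zeta s hs)
    le_rfl (bz_rh hRH) η0 μ (min 1 (ε / 2)) hη0 hη1 hμ hgap (by linarith)
    (lt_min one_pos (by positivity)) ψ K hlip hz
  obtain ⟨T1, hT1⟩ := (Real.tendsto_log_atTop.eventually_ge_atTop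
    (200 * C * Cw / ε)).exists_forall_of_atTop
  refine ⟨δ, hδ, max T0 T1, hT0.trans (le_max_left _ _), fun T hT H hH1 hH2 =>
    (measure_mono ?_).trans (h T ((le_max_left _ _).trans hT) H hH1 hH2)⟩
  have hTT1 := hT1 T ((le_max_right _ _).trans hT)
  have hT10 : 10 ≤ T := (hT0.trans (le_max_left _ _)).trans hT
  have hTpos : 0 < T := by linarith
  have hL : 0 < Real.log T := Real.log_pos (by linarith)
  have hHpos : 0 < H := lt_of_lt_of_le (Real.rpow_pos_of_pos hTpos _) hH1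
  set L := Real.log T with hLdef
  have hM0 : 0 < H * L / (2 * Real.pi) := by have := Real.pi_pos; positivity
  rintro t ⟨ht1, ht2⟩
  refine ⟨ht1, fun hcon => ht2 ?_⟩
  obtain ⟨g1, g2⟩ := hcon
  refine ⟨g1.trans ?_, ?_⟩
  · apply mul_le_mul_of_nonneg_right _ hM0.le
    exact (min_le_right _ _).trans (by linarith)
  have hU : 1 ≤ t := by linarith [ht1.1]
  rw [int_JN hRH hU hψc] at g2
  have hPP : PP ψ μ t (t + H) L = ∑ s ∈ Zf riemannZeta t (t + H), ∑ s' ∈ Zf riemannZeta t (t + H),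
      (mult riemannZeta s : ℝ) * (mult riemannZeta s' : ℝ) *
      RR ψ μ ((s.im - s'.im) * L / (2 * Real.pi)) := by
    unfold H370.A2.PP
    rw [finsum_Zf good_zeta hU]
    refine Finset.sum_congr rfl fun s _ => ?_
    rw [finsum_Zf good_zeta hU]
  have hdiff : |(∑ s ∈ Zf riemannZeta t (t + H), ∑ s' ∈ Zf riemannZeta t (t + H),
      (mult riemannZeta s : ℝ) * (mult riemannZeta s' : ℝ) *
        (RR ψ μ ((s.im - s'.im) * L / (2 * Real.pi)) * Real.exp (-(s.im - s'.im) ^ 2 / 4))) -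
      PP ψ μ t (t + H) L| ≤ 50 * C / L ^ 2 * (Cw * L * NN riemannZeta t (t + H)) := by
    rw [hPP, ← Finset.sum_sub_distrib]
    simp_rw [← Finset.sum_sub_distrib]
    have h1 := hw T hT10 t (t + H) ht1.1 (by linarith [ht1.2])
    calc _ ≤ ∑ s ∈ Zf riemannZeta t (t + H), ∑ s' ∈ Zf riemannZeta t (t + H),
        |(mult riemannZeta s : ℝ) * (mult riemannZeta s' : ℝ) *
        (RR ψ μ ((s.im - s'.im) * L / (2 * Real.pi)) * Real.exp (-(s.im - s'.im) ^ 2 / 4)) -
        (mult riemannZeta s : ℝ) * (mult riemannZeta s' : ℝ) *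
        RR ψ μ ((s.im - s'.im) * L / (2 * Real.pi))| :=
          (Finset.abs_sum_le_sum_abs _ _).trans (Finset.sum_le_sum fun s _ =>
            Finset.abs_sum_le_sum_abs _ _)
      _ ≤ ∑ s ∈ Zf riemannZeta t (t + H), ∑ s' ∈ Zf riemannZeta t (t + H),
          50 * C / L ^ 2 * ((mult riemannZeta s : ℝ) * (mult riemannZeta s' : ℝ) *
          (1 / (1 + (s.im - s'.im) ^ 2))) := by
          refine Finset.sum_le_sum fun s _ => Finset.sum_le_sum fun s' _ => ?_
          rw [← mul_sub, abs_mul, abs_of_nonneg (by positivity : (0 : ℝ) ≤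
            (mult riemannZeta s : ℝ) * (mult riemannZeta s' : ℝ))]
          have h2 := weight_free L (s.im - s'.im) C _ hL hC0
            (hC ((s.im - s'.im) * L / (2 * Real.pi)))
          calc _ ≤ (mult riemannZeta s : ℝ) * (mult riemannZeta s' : ℝ) *
              (50 * C / L ^ 2 * (1 / (1 + (s.im - s'.im) ^ 2))) := by gcongr
            _ = _ := by ring
      _ = 50 * C / L ^ 2 * ∑ s ∈ Zf riemannZeta t (t + H), ∑ s' ∈ Zf riemannZeta t (t + H),
          ((mult riemannZeta s : ℝ) * (mult riemannZeta s' : ℝ) *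
          (1 / (1 + (s.im - s'.im) ^ 2))) := by
          rw [Finset.mul_sum]
          refine Finset.sum_congr rfl fun s _ => ?_
          rw [Finset.mul_sum]
      _ ≤ _ := by gcongr
  have hNN : (NN riemannZeta t (t + H) : ℝ) ≤ 2 * (H * L / (2 * Real.pi)) := by
    have h3 := (abs_le.1 g1).2
    have h4 : min 1 (ε / 2) * (H * L / (2 * Real.pi)) ≤ 1 * (H * L / (2 * Real.pi)) := by
      gcongr; exact min_le_left _ _
    linarith
  have herr : 50 * C / L ^ 2 * (Cw * L * NN riemannZeta t (t + H)) ≤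
      ε / 2 * (H * L / (2 * Real.pi)) := by
    rw [div_le_iff₀ hε] at hTT1
    calc 50 * C / L ^ 2 * (Cw * L * NN riemannZeta t (t + H)) ≤
        50 * C / L ^ 2 * (Cw * L * (2 * (H * L / (2 * Real.pi)))) := by gcongr
      _ = (100 * C * Cw / L) * (H * L / (2 * Real.pi)) := by
          field_simp
          ring
      _ ≤ ε / 2 * (H * L / (2 * Real.pi)) := by
          apply mul_le_mul_of_nonneg_right _ hM0.le
          rw [div_le_iff₀ hL]
          linarith
  have h5 : min 1 (ε / 2) * (H * L / (2 * Real.pi)) ≤ ε / 2 * (H * L / (2 * Real.pi)) := by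
    gcongr; exact min_le_right _ _
  rw [abs_sub_comm] at hdiff
  have h6 := abs_sub_le (PP ψ μ t (t + H) L) (∑ s ∈ Zf riemannZeta t (t + H),
      ∑ s' ∈ Zf riemannZeta t (t + H),
      (mult riemannZeta s : ℝ) * (mult riemannZeta s' : ℝ) *
        (RR ψ μ ((s.im - s'.im) * L / (2 * Real.pi)) * Real.exp (-(s.im - s'.im) ^ 2 / 4)))
      ((H * L / (2 * Real.pi)) * (ψ 0 + ∫ α in (-μ)..μ, |α| * ψ α))
  linarith


end Pool.Agent.Helper65.NR
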