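import Pool.Agent.Helper65.NR.Block

set_option autoImplicit false

/-! # Number rigidity of the zeta zeros: one block -/

namespace Pool.Agent.Helper65.NR

open MeasureTheory Set Filter Topology
open H370 H370.A2

/-- the nontrivial zeros -/
def zeros : Set ℂ := {s : ℂ | riemannZeta s = 0 ∧ 0 < s.re ∧ s.re < 1}

/-- the multiplicity -/
noncomputable def zmult (s : ℂ) : ℕ := analyticOrderNatAt riemannZeta s

/-- the normalised position -/
noncomputable def pos (T t : ℝ) (s : ℂ) : ℝ := (s.im - t) * Real.log T / (2 * Real.pi)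

/-- the number of zeros in the window -/
noncomputable def count (T t : ℝ) (W : Set ℝ) : ℕ :=
  ∑ᶠ s ∈ {s : ℂ | s ∈ zeros ∧ pos T t s ∈ W}, zmult s

/-- the sum over the zeros in the window -/
noncomputable def stat (g : ℝ → ℝ) (T t : ℝ) (W : Set ℝ) : ℝ :=
  ∑ᶠ s ∈ {s : ℂ | s ∈ zeros ∧ pos T t s ∈ W}, (zmult s : ℝ) * g (pos T t s)

/-- rigidity at a height -/
def Rigid (g : ℝ → ℝ) (m a ε T t : ℝ) : Prop :=
  |stat g T t univ - m| ≤ ε ∧
    (∀ W : Set ℝ, W ⊆ Icc (-a) a → (count T t W : ℤ) = round (m - stat g T t Wᶜ)) ∧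
    (∀ s : ℝ, 0 ≤ s → s ≤ a →
      ((∀ z ∈ zeros, ¬ (t < z.im ∧ z.im ≤ t + 2 * Real.pi * s / Real.log T)) ↔
        round (m - stat g T t (Ioc 0 s)ᶜ) = 0))

/-- the number of zeros that are not rigid -/
noncomputable def bads (g : ℝ → ℝ) (m a ε T A B : ℝ) : ℕ :=
  ∑ᶠ s ∈ {s : ℂ | s ∈ zeros ∧ (A < s.im ∧ s.im ≤ B) ∧ ¬ Rigid g m a ε T s.im}, zmult s

lemma pos_eq (T t : ℝ) (s : ℂ) : pos T t s = uu (Real.log T) s - t * (Real.log T / (2 * Real.pi)) := by
  unfold pos uu; ring

lemma mem_block {A B : ℝ} (hA : 1 ≤ A) (s : ℂ) :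
    s ∈ Zf riemannZeta A B ↔ s ∈ zeros ∧ A < s.im ∧ s.im ≤ B := by
  rw [mem_Zf good_zeta hA]
  unfold zset zeros
  simp only [mem_ofPred_eq]
  tauto

lemma pos_block {A B T t Q : ℝ} (hL : 0 < Real.log T)
    (h1 : A ≤ t - 2 * Real.pi * Q / Real.log T) (h2 : t + 2 * Real.pi * Q / Real.log T ≤ B)
    {s : ℂ} (hs : |pos T t s| < Q) : A < s.im ∧ s.im ≤ B := by
  have hpi := Real.pi_pos
  unfold pos at hs
  have h5 : |s.im - t| < 2 * Real.pi * Q / Real.log T := by
    rw [mul_div_assoc, abs_mul, abs_of_pos (by positivity : 0 < Real.log T / (2 * Real.pi))] at hs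
    rw [lt_div_iff₀ hL]
    have h6 : |s.im - t| * (Real.log T / (2 * Real.pi)) * (2 * Real.pi) =
        |s.im - t| * Real.log T := by field_simp
    nlinarith
  rw [abs_lt] at h5
  constructor <;> linarith [h5.1, h5.2]

lemma stat_eq {A B T t Q : ℝ} {g : ℝ → ℝ} (hA : 1 ≤ A) (hL : 0 < Real.log T)
    (hg : ∀ x, Q ≤ |x| → g x = 0) (W : Set ℝ) [DecidablePred fun s : ℂ => pos T t s ∈ W]
    (h1 : A ≤ t - 2 * Real.pi * Q / Real.log T) (h2 : t + 2 * Real.pi * Q / Real.log T ≤ B) :
    stat g T t W = ∑ s ∈ (Zf riemannZeta A B).filter (fun s => pos T t s ∈ W),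
      ww s * g (pos T t s) := by
  unfold stat
  have hsupp : ∀ s : ℂ, (zmult s : ℝ) * g (pos T t s) ≠ 0 → A < s.im ∧ s.im ≤ B := by
    intro s hs
    have h3 : g (pos T t s) ≠ 0 := right_ne_zero_of_mul hs
    refine pos_block hL h1 h2 (lt_of_not_ge fun hcon => h3 (hg _ hcon))
  have hkey : ∑ᶠ s ∈ {s : ℂ | s ∈ zeros ∧ pos T t s ∈ W}, (zmult s : ℝ) * g (pos T t s) =
      ∑ s ∈ (Zf riemannZeta A B).filter (fun s => pos T t s ∈ W),
        (zmult s : ℝ) * g (pos T t s) := by
    apply finsum_mem_eq_sum_of_inter_support_eq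
    ext s
    rw [mem_inter_iff, mem_inter_iff, Finset.mem_coe, Finset.mem_filter, mem_block hA,
      mem_ofPred_eq, Function.mem_support]
    constructor
    · rintro ⟨⟨h3, h4⟩, h5⟩
      exact ⟨⟨⟨h3, hsupp s h5⟩, h4⟩, h5⟩
    · rintro ⟨⟨⟨h3, _⟩, h4⟩, h5⟩
      exact ⟨⟨h3, h4⟩, h5⟩
  rw [hkey]
  rfl

lemma count_eq {A B T t Q : ℝ} (hA : 1 ≤ A) (hL : 0 < Real.log T) {W : Set ℝ}
    [DecidablePred fun s : ℂ => pos T t s ∈ W]
    (hW : ∀ x ∈ W, |x| < Q)
    (h1 : A ≤ t - 2 * Real.pi * Q / Real.log T) (h2 : t + 2 * Real.pi * Q / Real.log T ≤ B) :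
    (count T t W : ℝ) = ∑ s ∈ (Zf riemannZeta A B).filter (fun s => pos T t s ∈ W), ww s := by
  unfold count
  have hset : {s : ℂ | s ∈ zeros ∧ pos T t s ∈ W} =
      ((Zf riemannZeta A B).filter (fun s => pos T t s ∈ W) : Set ℂ) := by
    ext s
    rw [Finset.mem_coe, Finset.mem_filter, mem_block hA, mem_ofPred_eq]
    constructor
    · rintro ⟨h3, h4⟩
      exact ⟨⟨h3, pos_block hL h1 h2 (hW _ h4)⟩, h4⟩
    · rintro ⟨⟨h3, _⟩, h4⟩
      exact ⟨h3, h4⟩
  rw [hset, finsum_mem_coe_finset]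
  push_cast
  rfl

lemma pos_Ioc {T t s : ℝ} (hL : 0 < Real.log T) (z : ℂ) :
    pos T t z ∈ Ioc 0 s ↔ t < z.im ∧ z.im ≤ t + 2 * Real.pi * s / Real.log T := by
  have hpi := Real.pi_pos
  unfold pos
  rw [mem_Ioc, div_le_iff₀ (by positivity), ← sub_le_iff_le_add', le_div_iff₀ hL]
  constructor
  · rintro ⟨h1, h2⟩
    constructor
    · by_contra hcon
      push Not at hcon
      have : (z.im - t) * Real.log T / (2 * Real.pi) ≤ 0 :=
        div_nonpos_of_nonpos_of_nonneg (mul_nonpos_of_nonpos_of_nonneg (by linarith) hL.le)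
          (by positivity)
      linarith
    · linarith
  · rintro ⟨h1, h2⟩
    constructor
    · have : 0 < z.im - t := by linarith
      positivity
    · linarith

lemma round_of_near {n : ℕ} {r : ℝ} (h : |(n : ℝ) - r| < 1 / 2) : (n : ℤ) = round r := by
  rw [round_eq, eq_comm, Int.floor_eq_iff]
  obtain ⟨h1, h2⟩ := abs_lt.1 h
  push_cast
  constructor <;> linarith

/-- a small deviation gives rigidity -/
lemma rigid_of {A B T t Q a ε m : ℝ} {g : ℝ → ℝ} (hA : 1 ≤ A) (hL : 0 < Real.log T)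
    (hg : ∀ x, Q ≤ |x| → g x = 0) (hg1 : ∀ x, |x| ≤ a → g x = 1) (haQ : a < Q)
    (h1 : A ≤ t - 2 * Real.pi * Q / Real.log T) (h2 : t + 2 * Real.pi * Q / Real.log T ≤ B)
    (hε : ε < 1 / 2)
    (hdev : |Ys (Zf riemannZeta A B) (uu (Real.log T)) ww g (t * (Real.log T / (2 * Real.pi))) - m| ≤
      ε) : Rigid g m a ε T t := by
  classical
  have hY : Ys (Zf riemannZeta A B) (uu (Real.log T)) ww g (t * (Real.log T / (2 * Real.pi))) =
      ∑ s ∈ Zf riemannZeta A B, ww s * g (pos T t s) := by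
    unfold Ys
    refine Finset.sum_congr rfl fun s _ => ?_
    rw [pos_eq]
  have main : ∀ W : Set ℝ, W ⊆ Icc (-a) a → (count T t W : ℤ) = round (m - stat g T t Wᶜ) := ?_
  refine ⟨?_, main, ?_⟩
  · rw [stat_eq hA hL hg univ h1 h2]
    have : (Zf riemannZeta A B).filter (fun s => pos T t s ∈ univ) = Zf riemannZeta A B :=
      Finset.filter_true_of_mem fun s _ => mem_univ _
    rw [this, ← hY]
    exact hdev
  · intro s hs0 hsa
    have hWs : Ioc (0 : ℝ) s ⊆ Icc (-a) a := fun x hx => ⟨by linarith [hx.1], hx.2.trans hsa⟩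
    rw [← main _ hWs]
    have hc := count_eq (W := Ioc 0 s) hA hL
      (fun x hx => (abs_le.2 (hWs hx)).trans_lt haQ) h1 h2
    constructor
    · intro h
      have h3 : (count T t (Ioc 0 s) : ℝ) = 0 := by
        rw [hc]
        apply Finset.sum_eq_zero
        intro z hz
        rw [Finset.mem_filter, mem_block hA] at hz
        exact absurd ((pos_Ioc hL z).1 hz.2) (h z hz.1.1)
      exact_mod_cast h3
    · intro h z hz hcon
      have h3 : (count T t (Ioc 0 s) : ℝ) = 0 := by exact_mod_cast h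
      rw [hc] at h3
      have h4 : pos T t z ∈ Ioc 0 s := (pos_Ioc hL z).2 hcon
      have h5 : z ∈ (Zf riemannZeta A B).filter (fun z => pos T t z ∈ Ioc 0 s) := by
        rw [Finset.mem_filter, mem_block hA]
        exact ⟨⟨hz, pos_block hL h1 h2 ((abs_le.2 (hWs h4)).trans_lt haQ)⟩, h4⟩
      rw [Finset.sum_eq_zero_iff_of_nonneg (fun s _ => ww_nonneg s)] at h3
      have h6 := h3 z h5
      rw [Finset.mem_filter, mem_block hA] at h5
      have h7 : 1 ≤ mult riemannZeta z :=
        H370.Loc.mult_pos' good_zeta (by linarith [h5.1.2.1]) hz.1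
      have h8 : (1 : ℝ) ≤ ww z := by
        unfold ww
        exact_mod_cast h7
      linarith
  · intro W hW
    apply round_of_near
    have hW2 : ∀ x ∈ W, |x| ≤ a := fun x hx => abs_le.2 (hW hx)
    rw [count_eq hA hL (fun x hx => (hW2 x hx).trans_lt haQ) h1 h2, stat_eq hA hL hg Wᶜ h1 h2]
    have e1 : ∑ s ∈ (Zf riemannZeta A B).filter (fun s => pos T t s ∈ W), ww s =
        ∑ s ∈ (Zf riemannZeta A B).filter (fun s => pos T t s ∈ W), ww s * g (pos T t s) := by
      refine Finset.sum_congr rfl fun s hs => ?_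
      rw [Finset.mem_filter] at hs
      rw [hg1 _ (hW2 _ hs.2), mul_one]
    have e2 := Finset.sum_filter_add_sum_filter_not (Zf riemannZeta A B)
      (fun s => pos T t s ∈ W) (fun s => ww s * g (pos T t s))
    rw [e1]
    rw [← hY] at e2
    have e3 : (∑ s ∈ (Zf riemannZeta A B).filter (fun s => pos T t s ∈ W), ww s * g (pos T t s)) -
        (m - ∑ s ∈ (Zf riemannZeta A B).filter (fun s => pos T t s ∈ Wᶜ),
          ww s * g (pos T t s)) =
        Ys (Zf riemannZeta A B) (uu (Real.log T)) ww g (t * (Real.log T / (2 * Real.pi))) - m := by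
      rw [← e2]
      have : (Zf riemannZeta A B).filter (fun s => pos T t s ∈ Wᶜ) =
          (Zf riemannZeta A B).filter (fun s => ¬ pos T t s ∈ W) := by
        ext s; simp
      rw [this]
      ring
    rw [e3]
    exact lt_of_le_of_lt hdev hε

/-- one block, in terms of the heights and of the zeros -/
theorem one_block_t {a ε Cn : ℝ} (ha : 0 < a) (hε : 0 < ε) (hε3 : ε ≤ 1 / 3) (p : Par a ε)
    {A H T : ℝ} (hA : 1 ≤ A) (hH : 0 ≤ H) (hL : 0 < Real.log T) (_hCn : 0 < Cn)
    (hM1 : 2 * p.D ≤ H * Real.log T / (2 * Real.pi))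
    (hM2 : 8 * phi p.R p.J 0 ^ 2 * p.D ≤ p.τ ^ 2 * (H * Real.log T / (2 * Real.pi)))
    (hedge : 32 * Real.pi * p.R' ≤ ε * H * Real.log T) (hd1 : 4 * Real.pi * p.R' < Real.log T)
    (hCH : 4 * Cn ≤ ε * H)
    (hnear : ∀ x : ℝ, ∑ s ∈ (Zf riemannZeta A (A + H)).filter
      (fun s => x - 1 < s.im ∧ s.im ≤ x + 1), (mult riemannZeta s : ℝ) ≤ Cn * Real.log T)
    (hNN : |(NN riemannZeta A (A + H) : ℝ) - H * Real.log T / (2 * Real.pi)| ≤
      p.ε1 * (H * Real.log T / (2 * Real.pi)))
    (hPP : |PP (fun α => phi p.R p.J α ^ 2) (1 / p.R) A (A + H) (Real.log T) -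
      H * Real.log T / (2 * Real.pi) *
        (phi p.R p.J 0 ^ 2 + ∫ α in (-(1 / p.R))..(1 / p.R), |α| * phi p.R p.J α ^ 2)| ≤
      p.ε1 * (H * Real.log T / (2 * Real.pi)))
    (hPP2 : |PP (fun α => phi 2 1 α ^ 2) (1 / 2) A (A + H) (Real.log T) -
      H * Real.log T / (2 * Real.pi) *
        (phi 2 1 0 ^ 2 + ∫ α in (-(1 / 2 : ℝ))..(1 / 2), |α| * phi 2 1 α ^ 2)| ≤
      1 * (H * Real.log T / (2 * Real.pi))) :
    volume {t : ℝ | t ∈ Icc A (A + H) ∧
      ¬ Rigid (gk (GJ p.R p.J) a p.R') (phi p.R p.J 0) a ε T t} ≤ ENNReal.ofReal (ε * H) ∧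
    (bads (gk (GJ p.R p.J) a p.R') (phi p.R p.J 0) a ε T A (A + H) : ℝ) ≤
      ε * (H * Real.log T) := by
  classical
  have hpi := Real.pi_pos
  have hpi3 := Real.pi_gt_three
  set L := Real.log T with hLd
  set M : ℝ := H * L / (2 * Real.pi) with hM
  have hM0 : 0 ≤ M := by positivity
  have hτ := p.hτ
  have hR'0 : 0 < p.R' := by linarith [p.hR'2]
  have hR0 : 0 < p.R := by linarith [p.hR2]
  set g := gk (GJ p.R p.J) a p.R' with hg
  set m := phi p.R p.J 0 with hm
  have hK := ker_GJ hR0 p.hJ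
  have hgc : Continuous g := gk_cont hK
  have hg0 : ∀ x, 2 * p.R' ≤ |x| → g x = 0 := fun x hx => gk_zero ha p.haR' hx
  have hg1 : ∀ x, |x| ≤ a → g x = 1 := fun x hx => gk_one hK (fun x => GJ_le_one p.hJ x) ha hx
  have haQ : a < 2 * p.R' := by linarith [p.haR']
  obtain ⟨B1, B2⟩ := one_block (L := L) (M := M) ha p hA (by linarith : A ≤ A + H) hL
    (by rw [hM]; ring) hM1 hM2 hNN hPP hPP2
  set c : ℝ := L / (2 * Real.pi) with hc
  have hc0 : 0 < c := by positivity
  set Y : ℝ → ℝ := Ys (Zf riemannZeta A (A + H)) (uu L) ww g with hY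
  have hYc : Continuous Y := by
    simp only [hY]
    unfold Ys
    fun_prop
  set d : ℝ := 2 * Real.pi * (2 * p.R') / L with hd
  have hd0 : 0 < d := by positivity
  have hd2 : d < 1 := by
    rw [hd, div_lt_one hL]
    linarith
  have hrig : ∀ t, A ≤ t - d → t + d ≤ A + H → |Y (t * c) - m| ≤ ε → Rigid g m a ε T t := by
    intro t h1 h2 h3
    exact rigid_of hA hL hg0 hg1 haQ (by rw [← hLd, ← hd]; exact h1)
      (by rw [← hLd, ← hd]; exact h2) (by linarith) h3
  have hτε := p.hτε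
  constructor
  · set S : Set ℝ := {σ : ℝ | ε ≤ |Y σ - m|} ∩
      Icc (A * L / (2 * Real.pi)) ((A + H) * L / (2 * Real.pi)) with hS
    have hSb : volume S ≤ ENNReal.ofReal (1 / 2 * ε * M) := by
      have hmark := mul_meas_ge_le_integral_of_nonneg
        (μ := volume.restrict (Icc (A * L / (2 * Real.pi)) ((A + H) * L / (2 * Real.pi))))
        (f := fun σ => |Y σ - m|) (Eventually.of_forall fun σ => abs_nonneg _)
        (by fun_prop : Continuous fun σ => |Y σ - m|).integrableOn_Icc ε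
      rw [hS, ← Measure.restrict_apply' measurableSet_Icc]
      have hfin : (volume.restrict (Icc (A * L / (2 * Real.pi)) ((A + H) * L / (2 * Real.pi))))
          {σ | ε ≤ |Y σ - m|} ≠ ⊤ :=
        ((measure_mono (subset_univ _)).trans_lt (by
          rw [Measure.restrict_apply_univ, Real.volume_Icc]; exact ENNReal.ofReal_lt_top)).ne
      rw [← ENNReal.ofReal_toReal hfin]
      apply ENNReal.ofReal_le_ofReal
      have h1 := hmark.trans B1
      have h2 : ε * (1 / 2 * ε * M) = 1 / 2 * (ε ^ 2 * M) := by ring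
      have h3 : 4 * p.τ * M ≤ ε * (1 / 2 * ε * M) := by
        rw [h2]
        have := mul_le_mul_of_nonneg_right hτε hM0
        nlinarith
      exact le_of_mul_le_mul_left (h1.trans h3) hε
    have hsub : {t : ℝ | t ∈ Icc A (A + H) ∧ ¬ Rigid g m a ε T t} ⊆
        (Icc A (A + d) ∪ Icc (A + H - d) (A + H)) ∪ (fun x => x * c) ⁻¹' S := by
      rintro t ⟨ht, hbad⟩
      by_cases h1 : t ≤ A + d
      · left; left; exact ⟨ht.1, h1⟩
      by_cases h2 : A + H - d ≤ t
      · left; right; exact ⟨h2, ht.2⟩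
      push Not at h1 h2
      right
      show t * c ∈ S
      refine ⟨?_, ?_, ?_⟩
      · by_contra hcon
        apply hbad
        apply hrig t (by linarith) (by linarith)
        have hcon' : ¬ ε ≤ |Y (t * c) - m| := hcon
        push Not at hcon'
        exact hcon'.le
      · have : A * L / (2 * Real.pi) = A * c := by rw [hc]; ring
        rw [this]
        exact mul_le_mul_of_nonneg_right ht.1 hc0.le
      · have : (A + H) * L / (2 * Real.pi) = (A + H) * c := by rw [hc]; ring
        rw [this]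
        exact mul_le_mul_of_nonneg_right ht.2 hc0.le
    have hpre : volume ((fun x => x * c) ⁻¹' S) ≤ ENNReal.ofReal (1 / 2 * ε * H) := by
      rw [Real.volume_preimage_mul_right hc0.ne', abs_of_pos (inv_pos.2 hc0)]
      calc ENNReal.ofReal c⁻¹ * volume S ≤
          ENNReal.ofReal c⁻¹ * ENNReal.ofReal (1 / 2 * ε * M) := by gcongr
        _ = ENNReal.ofReal (1 / 2 * ε * H) := by
            rw [← ENNReal.ofReal_mul (inv_pos.2 hc0).le]
            congr 1
            rw [hc, hM]
            field_simp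
    have hedge2 : volume (Icc A (A + d) ∪ Icc (A + H - d) (A + H)) ≤
        ENNReal.ofReal (1 / 4 * ε * H) := by
      refine (measure_union_le _ _).trans ?_
      rw [Real.volume_Icc, Real.volume_Icc, ← ENNReal.ofReal_add (by linarith) (by linarith)]
      apply ENNReal.ofReal_le_ofReal
      have h3 : 2 * d ≤ 1 / 4 * ε * H := by
        rw [hd, ← mul_div_assoc, div_le_iff₀ hL]
        linarith
      linarith
    refine (measure_mono hsub).trans ((measure_union_le _ _).trans ?_)
    refine (add_le_add hedge2 hpre).trans ?_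
    rw [← ENNReal.ofReal_add (by positivity) (by positivity)]
    apply ENNReal.ofReal_le_ofReal
    have : 0 ≤ ε * H := by positivity
    linarith
  · have e1 : (bads g m a ε T A (A + H) : ℝ) =
        ∑ s ∈ (Zf riemannZeta A (A + H)).filter (fun s => ¬ Rigid g m a ε T s.im), ww s := by
      unfold bads
      have hset : {s : ℂ | s ∈ zeros ∧ (A < s.im ∧ s.im ≤ A + H) ∧ ¬ Rigid g m a ε T s.im} =
          ((Zf riemannZeta A (A + H)).filter (fun s => ¬ Rigid g m a ε T s.im) : Set ℂ) := by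
        ext s
        rw [Finset.mem_coe, Finset.mem_filter, mem_block hA, mem_ofPred_eq]
        tauto
      rw [hset, finsum_mem_coe_finset]
      push_cast
      rfl
    rw [e1]
    have e2 : ∑ s ∈ (Zf riemannZeta A (A + H)).filter (fun s => ¬ Rigid g m a ε T s.im), ww s ≤
        (∑ s ∈ (Zf riemannZeta A (A + H)).filter (fun s => A - 1 < s.im ∧ s.im ≤ A + 1), ww s) +
        (∑ s ∈ (Zf riemannZeta A (A + H)).filter (fun s => A + H - 1 < s.im ∧ s.im ≤ A + H + 1),
          ww s) +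
        ∑ s ∈ Zf riemannZeta A (A + H), (1 / ε) * (ww s * |Y (uu L s) - m|) := by
      rw [Finset.sum_filter, Finset.sum_filter, Finset.sum_filter, ← Finset.sum_add_distrib,
        ← Finset.sum_add_distrib]
      refine Finset.sum_le_sum fun s hs => ?_
      have hw := ww_nonneg s
      rw [mem_block hA] at hs
      obtain ⟨_, hs1, hs2⟩ := hs
      have h0 : 0 ≤ (1 / ε) * (ww s * |Y (uu L s) - m|) := by positivity
      have h1 : 0 ≤ (if A - 1 < s.im ∧ s.im ≤ A + 1 then ww s else 0) := by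
        split_ifs
        · exact hw
        · exact le_rfl
      have h2 : 0 ≤ (if A + H - 1 < s.im ∧ s.im ≤ A + H + 1 then ww s else 0) := by
        split_ifs
        · exact hw
        · exact le_rfl
      by_cases hr : Rigid g m a ε T s.im
      · rw [if_neg (by tauto)]
        linarith
      · rw [if_pos hr]
        by_cases k1 : s.im ≤ A + 1
        · rw [if_pos ⟨by linarith, k1⟩]
          linarith
        by_cases k2 : A + H - 1 < s.im
        · rw [if_pos (c := A + H - 1 < s.im ∧ s.im ≤ A + H + 1) ⟨k2, by linarith⟩]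
          linarith
        push Not at k1 k2
        have k3 : ε ≤ |Y (uu L s) - m| := by
          by_contra hcon
          push Not at hcon
          apply hr
          apply hrig _ (by linarith) (by linarith)
          have : s.im * c = uu L s := by rw [hc]; unfold uu; ring
          rw [this]
          exact hcon.le
        have k4 : ww s ≤ (1 / ε) * (ww s * |Y (uu L s) - m|) := by
          have : (1 / ε) * (ww s * ε) = ww s := by field_simp
          calc ww s = (1 / ε) * (ww s * ε) := this.symm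
            _ ≤ _ := by gcongr
        linarith
    have e3 := hnear A
    have e4 := hnear (A + H)
    have e5 : ∑ s ∈ Zf riemannZeta A (A + H), (1 / ε) * (ww s * |Y (uu L s) - m|) ≤
        1 / 20 * (ε * M) := by
      rw [← Finset.mul_sum]
      have h1 : (1 / ε) * (∑ s ∈ Zf riemannZeta A (A + H), ww s * |Y (uu L s) - m|) ≤
          (1 / ε) * (50 * p.τ * M) := by gcongr
      refine h1.trans ?_
      rw [div_mul_eq_mul_div, one_mul, div_le_iff₀ hε]
      have := mul_le_mul_of_nonneg_right hτε hM0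
      nlinarith
    have e6 : M ≤ H * L := by
      rw [hM]
      apply div_le_self (by positivity)
      linarith
    have e7 : ε * M ≤ ε * (H * L) := by gcongr
    have e8 : 4 * Cn * L ≤ ε * H * L := by gcongr
    have e9 : 0 ≤ ε * (H * L) := by positivity
    refine e2.trans ?_
    have e3' : ∑ s ∈ (Zf riemannZeta A (A + H)).filter (fun s => A - 1 < s.im ∧ s.im ≤ A + 1),
        ww s ≤ Cn * L := e3
    have e4' : ∑ s ∈ (Zf riemannZeta A (A + H)).filter
        (fun s => A + H - 1 < s.im ∧ s.im ≤ A + H + 1), ww s ≤ Cn * L := e4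
    linarith

end Pool.Agent.Helper65.NR
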