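import Pool.Agent.Helper65.NR.Pars
import Pool.Agent.Helper65.NR.Abs2

set_option autoImplicit false

/-! # Averages of Fejér kernels over dyadic scales -/

namespace Pool.Agent.Helper65.NR

open MeasureTheory Set Filter Topology H370.A2

/-- the triangle function -/
noncomputable def tri (x : ℝ) : ℝ := max 0 (1 - |x|)

lemma tri_cont : Continuous tri := by unfold tri; fun_prop

lemma tri_nonneg (x : ℝ) : 0 ≤ tri x := le_max_left _ _

lemma tri_le_one (x : ℝ) : tri x ≤ 1 := by
  unfold tri
  exact max_le zero_le_one (by linarith [abs_nonneg x])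

lemma tri_even (x : ℝ) : tri (-x) = tri x := by unfold tri; rw [abs_neg]

lemma tri_zero {x : ℝ} (h : 1 ≤ |x|) : tri x = 0 := by
  unfold tri
  exact max_eq_left (by linarith)

lemma tri_eq {x : ℝ} (h : |x| ≤ 1) : tri x = 1 - |x| := by
  unfold tri
  exact max_eq_right (by linarith)

lemma tri_lip (x y : ℝ) : |tri x - tri y| ≤ |x - y| := by
  unfold tri
  refine (abs_max_sub_max_le_max _ _ _ _).trans ?_
  rw [sub_self, abs_zero, max_eq_right (abs_nonneg _)]
  have : 1 - |x| - (1 - |y|) = |y| - |x| := by ring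
  rw [this, abs_sub_comm x y]
  exact abs_abs_sub_abs_le_abs_sub y x

/-- the scales -/
noncomputable def rho (R : ℝ) (j : ℕ) : ℝ := R * 2 ^ j

lemma rho_pos {R : ℝ} (hR : 0 < R) (j : ℕ) : 0 < rho R j := by unfold rho; positivity

lemma rho_ge {R : ℝ} (hR : 0 < R) (j : ℕ) : R ≤ rho R j := by
  unfold rho
  have : (1 : ℝ) ≤ 2 ^ j := one_le_pow₀ (by norm_num)
  nlinarith

lemma rho_mono {R : ℝ} (hR : 0 < R) {i j : ℕ} (h : i ≤ j) : rho R i ≤ rho R j := by
  unfold rho
  have : (2 : ℝ) ^ i ≤ 2 ^ j := pow_le_pow_right₀ (by norm_num) h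
  nlinarith

/-- the transform of the kernel -/
noncomputable def phi (R : ℝ) (J : ℕ) (α : ℝ) : ℝ :=
  (1 / (J : ℝ)) * ∑ j ∈ Finset.range J, rho R j * tri (rho R j * α)

/-- the kernel -/
noncomputable def GJ (R : ℝ) (J : ℕ) (x : ℝ) : ℝ :=
  (1 / (J : ℝ)) * ∑ j ∈ Finset.range J, Real.sinc (Real.pi * (x / rho R j)) ^ 2

variable {R : ℝ} {J : ℕ}

lemma phi_cont : Continuous (phi R J) := by
  unfold phi
  have := tri_cont
  fun_prop

lemma phi_even (x : ℝ) : phi R J (-x) = phi R J x := by
  unfold phi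
  congr 1
  refine Finset.sum_congr rfl fun j _ => ?_
  rw [mul_neg, tri_even]

lemma phi_nonneg (hR : 0 < R) (x : ℝ) : 0 ≤ phi R J x := by
  unfold phi
  refine mul_nonneg (by positivity) (Finset.sum_nonneg fun j _ => ?_)
  exact mul_nonneg (rho_pos hR j).le (tri_nonneg _)

lemma phi_zero (hR : 0 < R) {x : ℝ} (h : 1 / R ≤ |x|) : phi R J x = 0 := by
  unfold phi
  rw [Finset.sum_eq_zero, mul_zero]
  intro j _
  have h1 := rho_ge hR j
  have h2 := rho_pos hR j
  rw [tri_zero, mul_zero]
  rw [abs_mul, abs_of_pos h2]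
  rw [div_le_iff₀ hR] at h
  nlinarith [abs_nonneg x]

/-- a bound for `phi` -/
lemma phi_le (hR : 0 < R) (hJ : 1 ≤ J) (x : ℝ) : phi R J x ≤ rho R J := by
  have hJ0 : (0 : ℝ) < J := by exact_mod_cast hJ
  unfold phi
  have h1 : ∑ j ∈ Finset.range J, rho R j * tri (rho R j * x) ≤ ∑ j ∈ Finset.range J, rho R J := by
    refine Finset.sum_le_sum fun j hj => ?_
    have h2 := rho_mono hR (Finset.mem_range.1 hj).le
    have h3 := tri_le_one (rho R j * x)
    have h4 := rho_pos hR j
    nlinarith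
  rw [Finset.sum_const, Finset.card_range, nsmul_eq_mul] at h1
  calc _ ≤ 1 / (J : ℝ) * (J * rho R J) := by gcongr
    _ = rho R J := by field_simp

lemma phi_lip (hR : 0 < R) (hJ : 1 ≤ J) (x y : ℝ) :
    |phi R J x - phi R J y| ≤ rho R J ^ 2 * |x - y| := by
  have hJ0 : (0 : ℝ) < J := by exact_mod_cast hJ
  unfold phi
  rw [← mul_sub, ← Finset.sum_sub_distrib, abs_mul, abs_of_pos (by positivity : 0 < 1 / (J : ℝ))]
  have h1 : |∑ j ∈ Finset.range J, (rho R j * tri (rho R j * x) - rho R j * tri (rho R j * y))| ≤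
      ∑ j ∈ Finset.range J, rho R J ^ 2 * |x - y| := by
    refine (Finset.abs_sum_le_sum_abs _ _).trans (Finset.sum_le_sum fun j hj => ?_)
    have h2 := rho_mono hR (Finset.mem_range.1 hj).le
    have h4 := rho_pos hR j
    rw [← mul_sub, abs_mul, abs_of_pos h4]
    have h5 := tri_lip (rho R j * x) (rho R j * y)
    rw [← mul_sub, abs_mul, abs_of_pos h4] at h5
    calc rho R j * |tri (rho R j * x) - tri (rho R j * y)| ≤ rho R j * (rho R j * |x - y|) := by
          gcongr
      _ = rho R j ^ 2 * |x - y| := by ring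
      _ ≤ _ := by gcongr
  rw [Finset.sum_const, Finset.card_range, nsmul_eq_mul] at h1
  calc _ ≤ 1 / (J : ℝ) * (J * (rho R J ^ 2 * |x - y|)) := by gcongr
    _ = _ := by field_simp

/-- one Fejér kernel -/
lemma fejer_scale {ρ μ : ℝ} (hρ : 0 < ρ) (hμ : 1 / ρ ≤ μ) (x : ℝ) :
    ∫ α in (-μ)..μ, (ρ * tri (ρ * α)) * Real.cos (2 * Real.pi * α * x) =
      Real.sinc (Real.pi * (x / ρ)) ^ 2 := by
  have hρ' : 0 < 1 / ρ := by positivity
  set F : ℝ → ℝ := fun α => (ρ * tri (ρ * α)) * Real.cos (2 * Real.pi * α * x) with hF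
  have hFc : Continuous F := by
    have := tri_cont
    simp only [hF]
    fun_prop
  have hF0 : ∀ α, 1 / ρ ≤ |α| → F α = 0 := by
    intro α h
    simp only [hF]
    rw [tri_zero, mul_zero, zero_mul]
    rw [abs_mul, abs_of_pos hρ]
    rw [div_le_iff₀ hρ] at h
    linarith
  have e1 : ∫ α in (-μ)..μ, F α = ∫ α in (-(1 / ρ))..(1 / ρ), F α := by
    have h1 : ∫ α in (-μ)..(-(1 / ρ)), F α = 0 := by
      rw [intervalIntegral.integral_congr (g := fun _ => (0 : ℝ))]
      · simp
      · intro α hα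
        rw [uIcc_of_le (by linarith)] at hα
        exact hF0 α (by rw [abs_of_nonpos (by linarith [hα.2])]; linarith [hα.2])
    have h2 : ∫ α in (1 / ρ)..μ, F α = 0 := by
      rw [intervalIntegral.integral_congr (g := fun _ => (0 : ℝ))]
      · simp
      · intro α hα
        rw [uIcc_of_le (by linarith)] at hα
        exact hF0 α (by rw [abs_of_nonneg (by linarith [hα.1])]; linarith [hα.1])
    have h3 := intervalIntegral.integral_add_adjacent_intervals
      (hFc.intervalIntegrable (μ := volume) (-μ) (-(1 / ρ)))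
      (hFc.intervalIntegrable (μ := volume) (-(1 / ρ)) (1 / ρ))
    have h4 := intervalIntegral.integral_add_adjacent_intervals
      (hFc.intervalIntegrable (μ := volume) (-μ) (1 / ρ))
      (hFc.intervalIntegrable (μ := volume) (1 / ρ) μ)
    rw [← h4, ← h3, h1, h2]
    ring
  rw [e1]
  have e2 : ∫ α in (-(1 / ρ))..(1 / ρ), F α =
      ∫ β in (-1 : ℝ)..1, (1 - |β|) * Real.cos (2 * Real.pi * (x / ρ) * β) := by
    have h1 := intervalIntegral.integral_comp_mul_left
      (fun β => (1 - |β|) * Real.cos (2 * Real.pi * (x / ρ) * β)) hρ.ne' (a := -(1 / ρ))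
      (b := 1 / ρ)
    have h2 : ρ * (-(1 / ρ)) = -1 := by field_simp
    have h3 : ρ * (1 / ρ) = 1 := by field_simp
    rw [h2, h3, smul_eq_mul] at h1
    have h4 : ∫ β in (-1 : ℝ)..1, (1 - |β|) * Real.cos (2 * Real.pi * (x / ρ) * β) =
        ρ * ∫ α in (-(1 / ρ))..(1 / ρ), (fun β => (1 - |β|) *
          Real.cos (2 * Real.pi * (x / ρ) * β)) (ρ * α) := by
      rw [h1]; field_simp
    rw [h4, ← intervalIntegral.integral_const_mul]
    refine intervalIntegral.integral_congr fun α hα => ?_
    rw [uIcc_of_le (by linarith)] at hα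
    have h5 : |ρ * α| ≤ 1 := by
      rw [abs_mul, abs_of_pos hρ]
      have : |α| ≤ 1 / ρ := abs_le.2 hα
      rw [le_div_iff₀ hρ] at this
      linarith
    show (ρ * tri (ρ * α)) * Real.cos (2 * Real.pi * α * x) =
      ρ * ((1 - |ρ * α|) * Real.cos (2 * Real.pi * (x / ρ) * (ρ * α)))
    rw [tri_eq h5]
    have h6 : 2 * Real.pi * (x / ρ) * (ρ * α) = 2 * Real.pi * α * x := by field_simp
    rw [h6]
    ring
  rw [e2]
  rcases eq_or_ne x 0 with hx | hx
  · subst hx
    simp only [zero_div, mul_zero, zero_mul, Real.cos_zero, mul_one, Real.sinc_zero, one_pow]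
    have h1 := intervalIntegral.integral_add_adjacent_intervals
      ((by fun_prop : Continuous fun β : ℝ => 1 - |β|).intervalIntegrable (μ := volume) (-1) 0)
      ((by fun_prop : Continuous fun β : ℝ => 1 - |β|).intervalIntegrable (μ := volume) 0 1)
    rw [← h1]
    have h2 : ∫ β in (-1 : ℝ)..0, (1 - |β|) = 1 / 2 := by
      rw [intervalIntegral.integral_congr (g := fun β => 1 + β)]
      · rw [intervalIntegral.integral_add (Continuous.intervalIntegrable (by fun_prop) _ _)
          (Continuous.intervalIntegrable (by fun_prop) _ _)]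
        simp
        norm_num
      · intro β hβ
        rw [uIcc_of_le (by norm_num)] at hβ
        show 1 - |β| = 1 + β
        rw [abs_of_nonpos hβ.2]; ring
    have h3 : ∫ β in (0 : ℝ)..1, (1 - |β|) = 1 / 2 := by
      rw [intervalIntegral.integral_congr (g := fun β => 1 - β)]
      · rw [intervalIntegral.integral_sub (Continuous.intervalIntegrable (by fun_prop) _ _)
          (Continuous.intervalIntegrable (by fun_prop) _ _)]
        simp
        norm_num
      · intro β hβ
        rw [uIcc_of_le (by norm_num)] at hβ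
        show 1 - |β| = 1 - β
        rw [abs_of_nonneg hβ.1]
    rw [h2, h3]; norm_num
  · rw [fejer (div_ne_zero hx hρ.ne'), Real.sinc_of_ne_zero]
    exact mul_ne_zero Real.pi_ne_zero (div_ne_zero hx hρ.ne')

/-- the kernel is the transform of `phi` -/
theorem RR_phi (hR : 0 < R) (x : ℝ) : RR (phi R J) (1 / R) x = GJ R J x := by
  unfold RR GJ phi
  have e1 : ∀ α, ((1 / (J : ℝ)) * ∑ j ∈ Finset.range J, rho R j * tri (rho R j * α)) *
      Real.cos (2 * Real.pi * α * x) = (1 / (J : ℝ)) * ∑ j ∈ Finset.range J,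
      ((rho R j * tri (rho R j * α)) * Real.cos (2 * Real.pi * α * x)) := by
    intro α
    rw [mul_assoc, Finset.sum_mul]
  simp_rw [e1]
  rw [intervalIntegral.integral_const_mul, intervalIntegral.integral_finsetSum]
  · congr 1
    refine Finset.sum_congr rfl fun j _ => ?_
    apply fejer_scale (rho_pos hR j)
    exact one_div_le_one_div_of_le hR (rho_ge hR j)
  · intro j _
    have := tri_cont
    apply Continuous.intervalIntegrable
    fun_prop

end Pool.Agent.Helper65.NR
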