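import Pool.Agent.Helper65.NR.Kern

set_option autoImplicit false

/-! # Averages of Fejér kernels over dyadic scales, continued -/

namespace Pool.Agent.Helper65.NR

open MeasureTheory Set Filter Topology H370.A2

variable {R : ℝ} {J : ℕ}

lemma sinc_sq_le (y : ℝ) : Real.sinc y ^ 2 ≤ 1 := by
  have h := Real.abs_sinc_le_one y
  rw [← sq_abs]
  nlinarith [abs_nonneg (Real.sinc y)]

lemma sinc_sq_mul (y : ℝ) : Real.sinc y ^ 2 * y ^ 2 ≤ 1 := by
  rcases eq_or_ne y 0 with h | h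
  · subst h; simp
  · rw [Real.sinc_of_ne_zero h, div_pow, div_mul_cancel₀ _ (by positivity)]
    have := Real.sin_sq_le_one y
    exact this

lemma sinc_sq_ge {y : ℝ} (h0 : |y| ≤ 1) : 1 - y ^ 2 / 2 ≤ Real.sinc y ^ 2 := by
  rcases eq_or_ne y 0 with h | h
  · subst h; simp
  · have hy : 0 < |y| := abs_pos.2 h
    have h1 := Real.sin_gt_sub_cube hy
    have e : Real.sinc y = Real.sin |y| / |y| := by
      rcases le_total 0 y with h2 | h2
      · rw [abs_of_nonneg h2, Real.sinc_of_ne_zero h]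
      · rw [abs_of_nonpos h2, Real.sinc_of_ne_zero h, Real.sin_neg, neg_div_neg_eq]
    have h2 : 1 - |y| ^ 2 / 4 ≤ Real.sinc y := by
      rw [e, le_div_iff₀ hy]
      nlinarith [pow_pos hy 3]
    have h3 : |y| ^ 2 = y ^ 2 := sq_abs y
    rw [h3] at h2
    have h4 : y ^ 2 ≤ 1 := by rw [← h3]; nlinarith
    have h5 : 0 ≤ 1 - y ^ 2 / 4 := by linarith
    have h6 : (1 - y ^ 2 / 4) ^ 2 ≤ Real.sinc y ^ 2 := pow_le_pow_left₀ h5 h2 2
    nlinarith [sq_nonneg (y ^ 2)]

lemma GJ_nonneg (x : ℝ) : 0 ≤ GJ R J x := by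
  unfold GJ
  exact mul_nonneg (by positivity) (Finset.sum_nonneg fun j _ => sq_nonneg _)

lemma GJ_cont : Continuous (GJ R J) := by
  unfold GJ
  have := Real.continuous_sinc
  fun_prop

lemma GJ_le_one (hJ : 1 ≤ J) (x : ℝ) : GJ R J x ≤ 1 := by
  have hJ0 : (0 : ℝ) < J := by exact_mod_cast hJ
  unfold GJ
  have h1 : ∑ j ∈ Finset.range J, Real.sinc (Real.pi * (x / rho R j)) ^ 2 ≤
      ∑ j ∈ Finset.range J, (1 : ℝ) := Finset.sum_le_sum fun j _ => sinc_sq_le _
  rw [Finset.sum_const, Finset.card_range, nsmul_eq_mul, mul_one] at h1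
  calc _ ≤ 1 / (J : ℝ) * J := by gcongr
    _ = 1 := by field_simp

lemma GJ_ge (hR : 0 < R) (hJ : 1 ≤ J) {a x : ℝ} (hx : |x| ≤ a) (ha : Real.pi * a ≤ R) :
    1 - 5 * a ^ 2 / R ^ 2 ≤ GJ R J x := by
  have hJ0 : (0 : ℝ) < J := by exact_mod_cast hJ
  have hpi := Real.pi_pos
  have hpi2 : Real.pi ^ 2 < 10 := by
    have := Real.pi_lt_d2
    nlinarith
  have ha0 : 0 ≤ a := (abs_nonneg x).trans hx
  unfold GJ
  have h1 : ∑ j ∈ Finset.range J, (1 - 5 * a ^ 2 / R ^ 2) ≤
      ∑ j ∈ Finset.range J, Real.sinc (Real.pi * (x / rho R j)) ^ 2 := by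
    refine Finset.sum_le_sum fun j _ => ?_
    have h2 := rho_ge hR j
    have h3 := rho_pos hR j
    have h4 : |Real.pi * (x / rho R j)| ≤ Real.pi * a / R := by
      rw [abs_mul, abs_of_pos hpi, abs_div, abs_of_pos h3, mul_div_assoc]
      gcongr
    have h5 : |Real.pi * (x / rho R j)| ≤ 1 := h4.trans (by rw [div_le_one hR]; exact ha)
    refine le_trans ?_ (sinc_sq_ge h5)
    have h6 : (Real.pi * (x / rho R j)) ^ 2 ≤ (Real.pi * a / R) ^ 2 := by
      rw [← sq_abs]
      exact pow_le_pow_left₀ (abs_nonneg _) h4 2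
    have h7 : (Real.pi * a / R) ^ 2 = Real.pi ^ 2 * (a ^ 2 / R ^ 2) := by
      rw [div_pow, mul_pow]; ring
    have h8 : Real.pi ^ 2 * (a ^ 2 / R ^ 2) ≤ 10 * (a ^ 2 / R ^ 2) := by gcongr
    have h9 : 5 * a ^ 2 / R ^ 2 = 5 * (a ^ 2 / R ^ 2) := by ring
    rw [h9]
    linarith
  rw [Finset.sum_const, Finset.card_range, nsmul_eq_mul] at h1
  calc 1 - 5 * a ^ 2 / R ^ 2 = 1 / (J : ℝ) * (J * (1 - 5 * a ^ 2 / R ^ 2)) := by field_simp
    _ ≤ _ := by gcongr

/-- the constant of the decay -/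
noncomputable def CJ (R : ℝ) (J : ℕ) : ℝ := 1 + rho R J ^ 2

lemma GJ_decay (hR : 0 < R) (hJ : 1 ≤ J) (x : ℝ) : GJ R J x ≤ CJ R J / (1 + x ^ 2) := by
  have hJ0 : (0 : ℝ) < J := by exact_mod_cast hJ
  have hpi := Real.pi_gt_three
  rw [le_div_iff₀ (by positivity)]
  unfold GJ CJ
  have h1 : ∑ j ∈ Finset.range J, Real.sinc (Real.pi * (x / rho R j)) ^ 2 * (1 + x ^ 2) ≤
      ∑ j ∈ Finset.range J, (1 + rho R J ^ 2) := by
    refine Finset.sum_le_sum fun j hj => ?_
    have h2 := rho_mono hR (Finset.mem_range.1 hj).le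
    have h3 := rho_pos hR j
    have h4 := sinc_sq_le (Real.pi * (x / rho R j))
    have h5 := sinc_sq_mul (Real.pi * (x / rho R j))
    set S := Real.sinc (Real.pi * (x / rho R j)) ^ 2 with hS
    have hS0 : 0 ≤ S := sq_nonneg _
    have h6 : S * x ^ 2 ≤ rho R j ^ 2 := by
      have e : (Real.pi * (x / rho R j)) ^ 2 = Real.pi ^ 2 * x ^ 2 / rho R j ^ 2 := by
        rw [mul_pow, div_pow]; ring
      rw [e, ← mul_div_assoc, div_le_one (by positivity)] at h5
      have h7 : S * x ^ 2 * 1 ≤ S * x ^ 2 * Real.pi ^ 2 := by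
        apply mul_le_mul_of_nonneg_left _ (by positivity)
        nlinarith
      nlinarith
    have h8 : rho R j ^ 2 ≤ rho R J ^ 2 := pow_le_pow_left₀ h3.le h2 2
    linarith
  rw [← Finset.sum_mul, Finset.sum_const, Finset.card_range, nsmul_eq_mul] at h1
  rw [mul_assoc]
  calc _ ≤ 1 / (J : ℝ) * (J * (1 + rho R J ^ 2)) := by gcongr
    _ = _ := by field_simp

lemma ker_GJ (hR : 0 < R) (hJ : 1 ≤ J) : Ker (GJ R J) (CJ R J) where
  cont := GJ_cont
  nonneg := GJ_nonneg
  le := GJ_decay hR hJ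
  C0 := by unfold CJ; positivity

lemma RR_phi_dec (hR : 0 < R) (hJ : 1 ≤ J) (x : ℝ) :
    |RR (phi R J) (1 / R) x| * x ^ 2 ≤ CJ R J := by
  rw [RR_phi hR, abs_of_nonneg (GJ_nonneg x)]
  have h := GJ_decay hR hJ x
  have h2 := GJ_nonneg (R := R) (J := J) x
  rw [le_div_iff₀ (by positivity)] at h
  nlinarith

/-- the mass of the kernel -/
lemma GJ_mass (hR : 0 < R) (hJ : 1 ≤ J) : ∫ x, GJ R J x = phi R J 0 := by
  have h := RR_inv (phi_cont (R := R) (J := J)) (fun x hx => phi_zero hR hx) (RR_phi_dec hR hJ) 0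
  rw [evp_of_even phi_even] at h
  rw [← h]
  refine integral_congr_ae (Eventually.of_forall fun x => ?_)
  show GJ R J x = RR (phi R J) (1 / R) x * Real.cos (2 * Real.pi * x * 0)
  rw [mul_zero, Real.cos_zero, mul_one, RR_phi hR]

/-- the convolution square of the kernel -/
lemma GJ_conv (hR : 0 < R) (hJ : 1 ≤ J) (x y : ℝ) :
    ∫ σ, GJ R J (x - σ) * GJ R J (y - σ) =
      RR (fun α => phi R J α ^ 2) (1 / R) (x - y) := by
  have h := conv_sq (phi_cont (R := R) (J := J)) phi_even (fun x hx => phi_zero hR hx)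
    (RR_phi_dec hR hJ) (x - y)
  rw [← h]
  simp_rw [RR_phi hR]
  have h2 := integral_sub_left_eq_self (fun w => GJ R J w * GJ R J (x - y + w)) volume y
  rw [← h2]
  refine integral_congr_ae (Eventually.of_forall fun σ => ?_)
  show GJ R J (x - σ) * GJ R J (y - σ) = GJ R J (y - σ) * GJ R J (x - y + (y - σ))
  have : x - y + (y - σ) = x - σ := by ring
  rw [this, mul_comm]

lemma sq_lip (hR : 0 < R) (hJ : 1 ≤ J) (x y : ℝ) :
    |phi R J x ^ 2 - phi R J y ^ 2| ≤ (2 * rho R J ^ 3) * |x - y| := by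
  have h1 := phi_lip hR hJ x y
  have h2 := phi_le hR hJ x
  have h3 := phi_le hR hJ y
  have h4 := phi_nonneg (J := J) hR x
  have h5 := phi_nonneg (J := J) hR y
  have h6 := rho_pos hR J
  have e : phi R J x ^ 2 - phi R J y ^ 2 = (phi R J x + phi R J y) * (phi R J x - phi R J y) := by
    ring
  rw [e, abs_mul, abs_of_nonneg (by positivity)]
  calc (phi R J x + phi R J y) * |phi R J x - phi R J y| ≤
      (rho R J + rho R J) * (rho R J ^ 2 * |x - y|) := by gcongr
    _ = _ := by ring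

lemma sq_zero (hR : 0 < R) {x : ℝ} (h : 1 / R ≤ |x|) : phi R J x ^ 2 = 0 := by
  rw [phi_zero hR h]; ring

lemma sq_dec (hR : 0 < R) (hJ : 1 ≤ J) (x : ℝ) :
    |RR (fun α => phi R J α ^ 2) (1 / R) x| * x ^ 2 ≤ 8 * Real.pi * CJ R J ^ 2 := by
  have h := conv_sq (phi_cont (R := R) (J := J)) phi_even (fun x hx => phi_zero hR hx)
    (RR_phi_dec hR hJ) x
  rw [← h]
  simp_rw [RR_phi hR]
  refine conv_decay (by unfold CJ; positivity) (fun y => ?_) x
  rw [abs_of_nonneg (GJ_nonneg y)]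
  exact GJ_decay hR hJ y

/-- a sum over dyadic scales -/
lemma dyad_sum {y : ℝ} (hy : 0 ≤ y) (J : ℕ) :
    ∑ j ∈ Finset.range J, (y * 2 ^ j) * tri (y * 2 ^ j) ≤ 2 := by
  induction J with
  | zero => simp
  | succ J ih =>
    rw [Finset.sum_range_succ]
    rcases le_total 1 (y * 2 ^ J) with h | h
    · rw [tri_zero (by rw [abs_of_nonneg (by positivity)]; exact h), mul_zero, add_zero]
      exact ih
    · have h1 : ∑ j ∈ Finset.range J, (y * 2 ^ j) * tri (y * 2 ^ j) ≤
          ∑ j ∈ Finset.range J, y * 2 ^ j := by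
        refine Finset.sum_le_sum fun j _ => ?_
        have := tri_le_one (y * 2 ^ j)
        have h2 : 0 ≤ y * 2 ^ j := by positivity
        nlinarith
      have h2 : ∑ j ∈ Finset.range J, y * 2 ^ j = y * (2 ^ J - 1) := by
        rw [← Finset.mul_sum, geom_sum_eq (by norm_num)]
        norm_num
      have h3 : (y * 2 ^ J) * tri (y * 2 ^ J) ≤ y * 2 ^ J := by
        have := tri_le_one (y * 2 ^ J)
        have h2 : 0 ≤ y * 2 ^ J := by positivity
        nlinarith
      rw [h2] at h1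
      nlinarith

lemma abs_mul_phi (hR : 0 < R) (α : ℝ) : |α| * phi R J α ≤ 2 / J := by
  unfold phi
  have e1 : |α| * ((1 / (J : ℝ)) * ∑ j ∈ Finset.range J, rho R j * tri (rho R j * α)) =
      (1 / (J : ℝ)) * ∑ j ∈ Finset.range J, ((R * |α|) * 2 ^ j) * tri ((R * |α|) * 2 ^ j) := by
    rw [mul_left_comm, Finset.mul_sum]
    congr 1
    refine Finset.sum_congr rfl fun j _ => ?_
    have h1 : tri (rho R j * α) = tri ((R * |α|) * 2 ^ j) := by
      unfold tri rho
      congr 2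
      rw [abs_mul, abs_mul, abs_mul, abs_mul, abs_abs]
      ring
    rw [h1]
    unfold rho
    ring
  rw [e1]
  have h2 := dyad_sum (by positivity : 0 ≤ R * |α|) J
  calc _ ≤ 1 / (J : ℝ) * 2 := by gcongr
    _ = _ := by ring

/-- the energy is small -/
theorem energy (hR : 0 < R) (hJ : 1 ≤ J) :
    ∫ α in (-(1 / R))..(1 / R), |α| * phi R J α ^ 2 ≤ 2 / J := by
  have hR' : 0 < 1 / R := by positivity
  have h1 : ∫ α in (-(1 / R))..(1 / R), |α| * phi R J α ^ 2 ≤
      ∫ α in (-(1 / R))..(1 / R), (2 / J) * phi R J α := by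
    apply intervalIntegral.integral_mono_on (by linarith)
    · apply Continuous.intervalIntegrable
      have := phi_cont (R := R) (J := J)
      fun_prop
    · apply Continuous.intervalIntegrable
      have := phi_cont (R := R) (J := J)
      fun_prop
    · intro α _
      have h2 := abs_mul_phi (J := J) hR α
      have h3 := phi_nonneg (J := J) hR α
      have e : |α| * phi R J α ^ 2 = (|α| * phi R J α) * phi R J α := by ring
      rw [e]
      exact mul_le_mul_of_nonneg_right h2 h3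
  refine h1.trans (le_of_eq ?_)
  rw [intervalIntegral.integral_const_mul]
  have h2 : ∫ α in (-(1 / R))..(1 / R), phi R J α = 1 := by
    have h3 := RR_phi (J := J) hR 0
    have h4 : GJ R J 0 = 1 := by
      have hJ0 : (0 : ℝ) < J := by exact_mod_cast hJ
      unfold GJ
      simp
      field_simp
    rw [h4] at h3
    unfold RR at h3
    simp only [mul_zero, Real.cos_zero, mul_one] at h3
    exact h3
  rw [h2, mul_one]

end Pool.Agent.Helper65.NR
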