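import Pool.Agent.Helper65.NR.Fin
import Pool.Agent.Helper65.NR.Both

set_option autoImplicit false

/-! # Number rigidity of the zeta zeros: the theorems -/

namespace Pool.Agent.Helper65.NR

open MeasureTheory Set Filter Topology
open H370 H370.A2

/-- rigidity of a block -/
def BlockRigid (g : ℝ → ℝ) (m a ε T b H : ℝ) : Prop :=
  volume {t : ℝ | t ∈ Icc b (b + H) ∧ ¬ Rigid g m a ε T t} ≤ ENNReal.ofReal (ε * H) ∧
    (bads g m a ε T b (b + H) : ℝ) ≤ ε * (H * Real.log T)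

lemma Rigid.mono {g : ℝ → ℝ} {m a ε ε' T t : ℝ} (hε : ε ≤ ε') (h : Rigid g m a ε T t) :
    Rigid g m a ε' T t := ⟨h.1.trans hε, h.2⟩

/-- `bads` as a finite sum -/
lemma bads_eq {g : ℝ → ℝ} {m a ε T A B : ℝ} (hA : 1 ≤ A)
    [DecidablePred fun s : ℂ => ¬ Rigid g m a ε T s.im] :
    bads g m a ε T A B =
      ∑ s ∈ (Zf riemannZeta A B).filter (fun s => ¬ Rigid g m a ε T s.im), zmult s := by
  unfold bads
  have hset : {s : ℂ | s ∈ zeros ∧ (A < s.im ∧ s.im ≤ B) ∧ ¬ Rigid g m a ε T s.im} =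
      ((Zf riemannZeta A B).filter (fun s => ¬ Rigid g m a ε T s.im) : Set ℂ) := by
    ext s
    rw [Finset.mem_coe, Finset.mem_filter, mem_block hA, mem_ofPred_eq]
    tauto
  rw [hset, finsum_mem_coe_finset]

lemma bads_mono {g : ℝ → ℝ} {m a ε ε' T A B B' : ℝ} (hA : 1 ≤ A) (hε : ε ≤ ε') (hB : B ≤ B') :
    bads g m a ε' T A B ≤ bads g m a ε T A B' := by
  classical
  rw [bads_eq hA, bads_eq hA]
  refine Finset.sum_le_sum_of_subset fun s hs => ?_
  rw [Finset.mem_filter, mem_block hA] at hs ⊢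
  exact ⟨⟨hs.1.1, hs.1.2.1, hs.1.2.2.trans hB⟩, fun h => hs.2 (h.mono hε)⟩

lemma bads_add {g : ℝ → ℝ} {m a ε T A x B : ℝ} (hA : 1 ≤ A) (hAx : A ≤ x) :
    bads g m a ε T A B ≤ bads g m a ε T A x + bads g m a ε T x B := by
  classical
  rw [bads_eq hA, bads_eq hA, bads_eq (hA.trans hAx)]
  refine le_trans ?_ (Finset.sum_union_inter (f := zmult)).le
  refine (Finset.sum_le_sum_of_subset ?_).trans (Nat.le_add_right _ _)
  intro s hs
  rw [Finset.mem_union, Finset.mem_filter, Finset.mem_filter, mem_block hA,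
    mem_block (hA.trans hAx)]
  rw [Finset.mem_filter, mem_block hA] at hs
  obtain ⟨⟨h1, h2, h3⟩, h4⟩ := hs
  rcases le_or_gt s.im x with h5 | h5
  · left; exact ⟨⟨h1, h2, h5⟩, h4⟩
  · right; exact ⟨⟨h1, h5, h3⟩, h4⟩

lemma bads_le_NN {g : ℝ → ℝ} {m a ε T A B : ℝ} (hA : 1 ≤ A) :
    bads g m a ε T A B ≤ NN riemannZeta A B := by
  classical
  rw [bads_eq hA, NN_eq good_zeta hA]
  exact Finset.sum_le_sum_of_subset (Finset.filter_subset _ _)

lemma BlockRigid.mono {g : ℝ → ℝ} {m a ε ε' T b H : ℝ} (hε : ε ≤ ε') (hb : 1 ≤ b) (hH : 0 ≤ H)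
    (hT : 1 ≤ T) (h : BlockRigid g m a ε T b H) : BlockRigid g m a ε' T b H := by
  have hL := Real.log_nonneg hT
  constructor
  · refine (measure_mono ?_).trans (h.1.trans (ENNReal.ofReal_le_ofReal (by gcongr)))
    rintro t ⟨h1, h2⟩
    exact ⟨h1, fun h3 => h2 (h3.mono hε)⟩
  · have h1 : (bads g m a ε' T b (b + H) : ℝ) ≤ bads g m a ε T b (b + H) := by
      exact_mod_cast bads_mono hb hε le_rfl
    refine (h1.trans h.2).trans ?_
    gcongr

/-- almost all short intervals -/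
theorem short (hRH : RiemannHypothesis) (a ε : ℝ) (ha : 0 < a) (hε : 0 < ε) :
    ∃ (g : ℝ → ℝ) (m : ℝ), Continuous g ∧ HasCompactSupport g ∧ (∀ x, 0 ≤ g x ∧ g x ≤ 1) ∧
      (∀ x, |x| ≤ a → g x = 1) ∧
      ∀ θ : ℝ, 0 < θ → θ < 1 → ∃ δ : ℝ, 0 < δ ∧ ∀ᶠ T : ℝ in atTop, ∀ H : ℝ,
        T ^ θ ≤ H → H ≤ T / 8 →
        volume {b : ℝ | b ∈ Icc T (2 * T) ∧ ¬ BlockRigid g m a ε T b H} ≤
        ENNReal.ofReal (T ^ (1 - δ)) := by
  have hpi := Real.pi_pos
  set ε0 := min ε (1 / 3) with hε0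
  have hε00 : 0 < ε0 := lt_min hε (by norm_num)
  have hε03 : ε0 ≤ 1 / 3 := min_le_right _ _
  have hε0ε : ε0 ≤ ε := min_le_left _ _
  obtain ⟨p⟩ := exists_par ha hε00
  have hR0 : 0 < p.R := by linarith [p.hR2]
  have hR'0 : 0 < p.R' := by linarith [p.hR'2]
  have hK := ker_GJ hR0 p.hJ
  refine ⟨gk (GJ p.R p.J) a p.R', phi p.R p.J 0, gk_cont hK, gk_supp ha p.haR',
    fun x => ⟨gk_nonneg x, gk_le_one hK (fun x => GJ_le_one p.hJ x) x⟩,
    fun x hx => gk_one hK (fun x => GJ_le_one p.hJ x) ha hx, fun θ hθ0 hθ1 => ?_⟩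
  have hμ : 0 < 1 / p.R := by positivity
  have hgap : 2 * (1 / p.R) < 1 + θ := by
    have : 2 * (1 / p.R) ≤ 1 := by
      rw [mul_one_div, div_le_one hR0]; exact p.hR2
    linarith
  obtain ⟨δ1, hδ1, T1, hT1, h1⟩ := almost_both hRH θ (1 / p.R) p.ε1 hθ0 hθ1 hμ hgap p.hε1
    (fun α => phi p.R p.J α ^ 2) (2 * rho p.R p.J ^ 3) (sq_lip hR0 p.hJ)
    (fun x hx => sq_zero hR0 hx) (8 * Real.pi * CJ p.R p.J ^ 2) (sq_dec hR0 p.hJ)
  obtain ⟨δ2, hδ2, T2, hT2, h2⟩ := almost_both hRH θ (1 / 2) 1 hθ0 hθ1 (by norm_num)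
    (by linarith) one_pos
    (fun α => phi 2 1 α ^ 2) (2 * rho 2 1 ^ 3) (sq_lip two_pos le_rfl)
    (fun x hx => sq_zero two_pos hx) (8 * Real.pi * CJ 2 1 ^ 2) (sq_dec two_pos le_rfl)
  obtain ⟨Cn, hCn, hnear⟩ := near_count good_zeta
  set δ := min δ1 δ2 / 2 with hδ
  have hδ0 : 0 < δ := by rw [hδ]; have := lt_min hδ1 hδ2; linarith
  have hδδ1 : 2 * δ ≤ δ1 := by rw [hδ]; linarith [min_le_left δ1 δ2]
  have hδδ2 : 2 * δ ≤ δ2 := by rw [hδ]; linarith [min_le_right δ1 δ2]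
  refine ⟨δ, hδ0, ?_⟩
  have ev1 : ∀ᶠ T : ℝ in atTop, (2 * p.D) * (2 * Real.pi) +
      8 * phi p.R p.J 0 ^ 2 * p.D * (2 * Real.pi) / p.τ ^ 2 + 32 * Real.pi * p.R' / ε0 +
      4 * Cn / ε0 ≤ T ^ θ := (tendsto_rpow_atTop hθ0).eventually_ge_atTop _
  have ev2 : ∀ᶠ T : ℝ in atTop, 1 + 4 * Real.pi * p.R' < Real.log T :=
    Real.tendsto_log_atTop.eventually_gt_atTop _
  have ev3 : ∀ᶠ T : ℝ in atTop, 2 ≤ T ^ δ := (tendsto_rpow_atTop hδ0).eventually_ge_atTop _
  have hD0 : 0 < p.D := by linarith [p.hD]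
  have hτ0 := p.hτ
  filter_upwards [eventually_ge_atTop T1, eventually_ge_atTop T2, ev1, ev2, ev3] with
    T hTT1 hTT2 hT3 hT4 hT5 H hH1 hH2
  have hT10 : 10 ≤ T := hT1.trans hTT1
  have hT0 : 0 < T := by linarith
  have hR'pi : 0 < 4 * Real.pi * p.R' := by positivity
  have hL0 : 0 < Real.log T := by linarith
  have hL1 : 1 ≤ Real.log T := by linarith
  have q0 : 0 ≤ (2 * p.D) * (2 * Real.pi) := by positivity
  have q1 : 0 ≤ 8 * phi p.R p.J 0 ^ 2 * p.D * (2 * Real.pi) / p.τ ^ 2 := by positivity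
  have q2 : 0 ≤ 32 * Real.pi * p.R' / ε0 := by positivity
  have q3 : 0 ≤ 4 * Cn / ε0 := by positivity
  have hH0 : 0 ≤ H := le_trans (by positivity) hH1
  have r0 : (2 * p.D) * (2 * Real.pi) ≤ H := by linarith
  have r1 : 8 * phi p.R p.J 0 ^ 2 * p.D * (2 * Real.pi) ≤ p.τ ^ 2 * H := by
    have : 8 * phi p.R p.J 0 ^ 2 * p.D * (2 * Real.pi) / p.τ ^ 2 ≤ H := by linarith
    rw [div_le_iff₀ (by positivity)] at this
    linarith
  have r2 : 32 * Real.pi * p.R' ≤ ε0 * H := by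
    have : 32 * Real.pi * p.R' / ε0 ≤ H := by linarith
    rw [div_le_iff₀ hε00] at this
    linarith
  have r3 : 4 * Cn ≤ ε0 * H := by
    have : 4 * Cn / ε0 ≤ H := by linarith
    rw [div_le_iff₀ hε00] at this
    linarith
  have hHL : H ≤ H * Real.log T := le_mul_of_one_le_right hH0 hL1
  refine (measure_mono (t := {b : ℝ | b ∈ Icc T (2 * T) ∧
        ¬ (|(NN riemannZeta b (b + H) : ℝ) - H * Real.log T / (2 * Real.pi)| ≤
            p.ε1 * (H * Real.log T / (2 * Real.pi)) ∧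
          |PP (fun α => phi p.R p.J α ^ 2) (1 / p.R) b (b + H) (Real.log T) -
            (H * Real.log T / (2 * Real.pi)) * (phi p.R p.J 0 ^ 2 +
              ∫ α in (-(1 / p.R))..(1 / p.R), |α| * phi p.R p.J α ^ 2)| ≤
            p.ε1 * (H * Real.log T / (2 * Real.pi)))} ∪
      {b : ℝ | b ∈ Icc T (2 * T) ∧
        ¬ (|(NN riemannZeta b (b + H) : ℝ) - H * Real.log T / (2 * Real.pi)| ≤
            1 * (H * Real.log T / (2 * Real.pi)) ∧
          |PP (fun α => phi 2 1 α ^ 2) (1 / 2) b (b + H) (Real.log T) -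
            (H * Real.log T / (2 * Real.pi)) * (phi 2 1 0 ^ 2 +
              ∫ α in (-(1 / 2 : ℝ))..(1 / 2), |α| * phi 2 1 α ^ 2)| ≤
            1 * (H * Real.log T / (2 * Real.pi)))}) ?_).trans
      ((measure_union_le _ _).trans ((add_le_add (h1 T hTT1 H hH1 hH2)
        (h2 T hTT2 H hH1 hH2)).trans ?_))
  · rintro b ⟨hb1, hb2⟩
    by_contra hcon
    rw [mem_union, not_or] at hcon
    obtain ⟨c1, c2⟩ := hcon
    have c1' := Classical.not_not.1 (fun h => c1 ⟨hb1, h⟩)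
    have c2' := Classical.not_not.1 (fun h => c2 ⟨hb1, h⟩)
    apply hb2
    have hb3 : 1 ≤ b := by linarith [hb1.1]
    refine BlockRigid.mono hε0ε hb3 hH0 (by linarith) ?_
    refine one_block_t (Cn := Cn) ha hε00 hε03 p hb3 hH0 hL0 hCn ?_ ?_ ?_ ?_ r3
      (fun x => hnear T hT10 b (b + H) hb1.1 (by linarith [hb1.2]) x) c1'.1 c1'.2 c2'.2
    · rw [le_div_iff₀ (by positivity)]
      linarith
    · rw [mul_div_assoc', le_div_iff₀ (by positivity)]
      calc _ ≤ p.τ ^ 2 * H := r1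
        _ ≤ _ := by gcongr
    · calc _ ≤ ε0 * H := r2
        _ ≤ ε0 * (H * Real.log T) := by gcongr
        _ = _ := by ring
    · linarith
  · rw [← ENNReal.ofReal_add (by positivity) (by positivity)]
    apply ENNReal.ofReal_le_ofReal
    have e1 : T ^ (1 - δ1) ≤ T ^ (1 - 2 * δ) := by
      apply Real.rpow_le_rpow_of_exponent_le (by linarith)
      linarith
    have e2 : T ^ (1 - δ2) ≤ T ^ (1 - 2 * δ) := by
      apply Real.rpow_le_rpow_of_exponent_le (by linarith)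
      linarith
    have e3 : T ^ (1 - 2 * δ) * T ^ δ = T ^ (1 - δ) := by
      rw [← Real.rpow_add hT0]
      congr 1
      ring
    have e4 : 0 < T ^ (1 - 2 * δ) := Real.rpow_pos_of_pos hT0 _
    rw [← e3]
    nlinarith

/-- from short intervals to the dyadic interval -/
theorem full_of_short {g : ℝ → ℝ} {m a ε δ : ℝ} (hε : 0 < ε) (hδ : 0 < δ)
    (h : ∀ᶠ T : ℝ in atTop, volume {b : ℝ | b ∈ Icc T (2 * T) ∧
      ¬ BlockRigid g m a (ε / 2) T b (T / 8)} ≤ ENNReal.ofReal (T ^ (1 - δ))) :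
    ∀ᶠ T : ℝ in atTop, BlockRigid g m a ε T T T := by
  obtain ⟨C, hC, hNN⟩ := H370.SI.nn_short good_zeta
  have ev1 : ∀ᶠ T : ℝ in atTop, max (36 / ε * (1 + 2 * C)) 72 ≤ T ^ (min δ (1 / 2)) :=
    (tendsto_rpow_atTop (lt_min hδ (by norm_num))).eventually_ge_atTop _
  have ev2 : ∀ᶠ T : ℝ in atTop, Real.log T ≤ T ^ ((1 : ℝ) / 2) := by
    have := isLittleO_log_rpow_atTop (show (0 : ℝ) < 1 / 2 by norm_num)
    filter_upwards [this.bound one_pos, eventually_ge_atTop 1] with T hT hT1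
    rw [Real.norm_eq_abs, Real.norm_eq_abs, one_mul, abs_of_nonneg (Real.log_nonneg hT1),
      abs_of_nonneg (by positivity)] at hT
    exact hT
  have ev3 : ∀ᶠ T : ℝ in atTop, 1 ≤ Real.log T := Real.tendsto_log_atTop.eventually_ge_atTop _
  filter_upwards [h, ev1, ev2, ev3, eventually_ge_atTop 10] with T h1 h2 hlog hL1 hT10
  have hT : 0 < T := by linarith
  set δ' := min δ (1 / 2) with hδ'
  have hδ'0 : 0 < δ' := lt_min hδ (by norm_num)
  have hTδ : 0 < T ^ δ' := Real.rpow_pos_of_pos hT _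
  set w0 : ℝ := T ^ (1 - δ') with hw0
  have hw00 : 0 < w0 := Real.rpow_pos_of_pos hT _
  have hw1 : w0 * T ^ δ' = T := by
    rw [hw0, ← Real.rpow_add hT]
    have : 1 - δ' + δ' = 1 := by ring
    rw [this, Real.rpow_one]
  have hw0T : T ^ (1 - δ) ≤ w0 := by
    rw [hw0]
    apply Real.rpow_le_rpow_of_exponent_le (by linarith)
    have := min_le_left δ (1 / 2)
    linarith
  have hw0h : T ^ ((1 : ℝ) / 2) ≤ w0 := by
    rw [hw0]
    apply Real.rpow_le_rpow_of_exponent_le (by linarith)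
    have := min_le_right δ (1 / 2)
    linarith
  set w : ℝ := 9 * w0 with hw
  have hwT : w ≤ T / 8 := by
    have h3 : 72 ≤ T ^ δ' := (le_max_right _ _).trans h2
    have : w0 * 72 ≤ w0 * T ^ δ' := by gcongr
    rw [hw1] at this
    rw [hw]; linarith
  have hwε : w * (1 + 2 * C) ≤ ε / 4 * T := by
    have h3 : 36 / ε * (1 + 2 * C) ≤ T ^ δ' := (le_max_left _ _).trans h2
    rw [div_mul_eq_mul_div, div_le_iff₀ hε] at h3
    have : w0 * (36 * (1 + 2 * C)) ≤ w0 * (T ^ δ' * ε) := by gcongr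
    rw [← mul_assoc, ← mul_assoc, hw1] at this
    rw [hw]; linarith
  have hwε2 : w ≤ ε / 4 * T := by
    refine le_trans ?_ hwε
    have : 0 ≤ w * (2 * C) := by positivity
    linarith
  have hw1' : 1 ≤ w0 := by
    have : (1 : ℝ) ≤ T ^ ((1 : ℝ) / 2) := Real.one_le_rpow (by linarith) (by norm_num)
    linarith
  set X : Set ℝ := {b : ℝ | b ∈ Icc T (2 * T) ∧ ¬ BlockRigid g m a (ε / 2) T b (T / 8)} with hX
  -- a good starting point
  obtain ⟨b, hb1, hb2⟩ : ∃ b ∈ Icc T (T + w), ∀ j ∈ Finset.range 8, b + (j : ℝ) * (T / 8) ∉ X := by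
    by_contra hcon
    push Not at hcon
    have hsub : Icc T (T + w) ⊆ ⋃ j ∈ Finset.range 8, (fun x => x + (j : ℝ) * (T / 8)) ⁻¹' X := by
      intro b hb
      obtain ⟨j, hj, hj2⟩ := hcon b hb
      simp only [mem_iUnion]
      exact ⟨j, hj, hj2⟩
    have h3 := measure_mono (μ := volume) hsub
    rw [Real.volume_Icc] at h3
    have h4 : volume (⋃ j ∈ Finset.range 8, (fun x => x + (j : ℝ) * (T / 8)) ⁻¹' X) ≤
        ∑ j ∈ Finset.range 8, ENNReal.ofReal w0 := by
      refine (measure_biUnion_finset_le _ _).trans (Finset.sum_le_sum fun j _ => ?_)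
      rw [measure_preimage_add_right]
      exact h1.trans (ENNReal.ofReal_le_ofReal hw0T)
    have h5 : ∑ j ∈ Finset.range 8, ENNReal.ofReal w0 = ENNReal.ofReal (8 * w0) := by
      rw [Finset.sum_const, Finset.card_range, nsmul_eq_mul, ENNReal.ofReal_mul (by norm_num)]
      norm_num
    rw [h5] at h4
    have h6 := h3.trans h4
    rw [ENNReal.ofReal_le_ofReal_iff (by positivity)] at h6
    rw [hw] at h6
    linarith
  have hgood : ∀ j ∈ Finset.range 8, BlockRigid g m a (ε / 2) T (b + (j : ℝ) * (T / 8)) (T / 8) := by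
    intro j hj
    by_contra hcon
    apply hb2 j hj
    refine ⟨⟨?_, ?_⟩, hcon⟩
    · have : 0 ≤ (j : ℝ) * (T / 8) := by positivity
      linarith [hb1.1]
    · have h5 : (j : ℝ) ≤ 7 := by
        have := Finset.mem_range.1 hj
        exact_mod_cast Nat.le_of_lt_succ this
      have h6 : (j : ℝ) * (T / 8) ≤ 7 * (T / 8) := by gcongr
      linarith [hb1.2]
  have hbT : 1 ≤ b := by linarith [hb1.1]
  have hεT : 0 ≤ ε * T := by positivity
  constructor
  · have hcov : {t : ℝ | t ∈ Icc T (T + T) ∧ ¬ Rigid g m a ε T t} ⊆ Icc T (T + w) ∪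
        ⋃ j ∈ Finset.range 8, {t : ℝ | t ∈ Icc (b + (j : ℝ) * (T / 8))
          (b + (j : ℝ) * (T / 8) + T / 8) ∧ ¬ Rigid g m a (ε / 2) T t} := by
      rintro t ⟨ht2, ht1⟩
      have ht1' : ¬ Rigid g m a (ε / 2) T t := fun h => ht1 (h.mono (by linarith))
      by_cases h3 : t ≤ b
      · left; exact ⟨ht2.1, h3.trans hb1.2⟩
      right
      push Not at h3
      have h8 : (0 : ℝ) < T / 8 := by positivity
      set j : ℕ := ⌊(t - b) / (T / 8)⌋₊ with hj
      have h4 : (j : ℝ) ≤ (t - b) / (T / 8) := Nat.floor_le (by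
        apply div_nonneg _ h8.le; linarith)
      have h5 : (t - b) / (T / 8) < j + 1 := Nat.lt_floor_add_one _
      rw [le_div_iff₀ h8] at h4
      rw [div_lt_iff₀ h8] at h5
      by_cases h6 : j < 8
      · simp only [mem_iUnion]
        exact ⟨j, Finset.mem_range.2 h6, ⟨by linarith, by linarith⟩, ht1'⟩
      · push Not at h6
        have h7 : (8 : ℝ) ≤ j := by exact_mod_cast h6
        have h9 : 8 * (T / 8) ≤ j * (T / 8) := by gcongr
        have h10 : t ≤ b + T := by linarith [ht2.2, hb1.1]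
        have h11 : t = b + T := by linarith
        simp only [mem_iUnion]
        refine ⟨7, Finset.mem_range.2 (by norm_num), ⟨?_, ?_⟩, ht1'⟩
        · push_cast; linarith
        · push_cast; linarith
    refine (measure_mono hcov).trans ((measure_union_le _ _).trans ?_)
    have h3 : volume (⋃ j ∈ Finset.range 8, {t : ℝ | t ∈ Icc (b + (j : ℝ) * (T / 8))
          (b + (j : ℝ) * (T / 8) + T / 8) ∧ ¬ Rigid g m a (ε / 2) T t}) ≤
          ENNReal.ofReal (ε / 2 * T) := by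
      refine (measure_biUnion_finset_le _ _).trans ?_
      refine (Finset.sum_le_sum fun j hj => (hgood j hj).1).trans (le_of_eq ?_)
      rw [Finset.sum_const, Finset.card_range, nsmul_eq_mul]
      have : ((8 : ℕ) : ENNReal) = ENNReal.ofReal 8 := by norm_num
      rw [this, ← ENNReal.ofReal_mul (by norm_num)]
      congr 1
      ring
    have h4 : volume (Icc T (T + w)) ≤ ENNReal.ofReal (ε / 4 * T) := by
      rw [Real.volume_Icc]
      apply ENNReal.ofReal_le_ofReal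
      linarith
    refine (add_le_add h4 h3).trans ?_
    rw [← ENNReal.ofReal_add (by positivity) (by positivity)]
    apply ENNReal.ofReal_le_ofReal
    linarith
  · have hind : ∀ j : ℕ, j ≤ 8 → (bads g m a (ε / 2) T b (b + (j : ℝ) * (T / 8)) : ℝ) ≤
        j * (ε / 2 * (T / 8 * Real.log T)) := by
      intro j
      induction j with
      | zero =>
        intro _
        have : bads g m a (ε / 2) T b (b + ((0 : ℕ) : ℝ) * (T / 8)) = 0 := by
          classical
          rw [bads_eq hbT]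
          apply Finset.sum_eq_zero
          intro s hs
          rw [Finset.mem_filter, mem_block hbT] at hs
          obtain ⟨⟨_, h2, h3⟩, _⟩ := hs
          push_cast at h3
          linarith
        rw [this]
        simp
      | succ j ih =>
        intro hj
        have h3 := ih (by omega)
        have h4 := (hgood j (Finset.mem_range.2 (by omega))).2
        have h5 : b ≤ b + (j : ℝ) * (T / 8) := by
          have : 0 ≤ (j : ℝ) * (T / 8) := by positivity
          linarith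
        have h6 : b + (j : ℝ) * (T / 8) + T / 8 = b + ((j + 1 : ℕ) : ℝ) * (T / 8) := by
          push_cast; ring
        rw [h6] at h4
        have h7 := bads_add (g := g) (m := m) (a := a) (ε := ε / 2) (T := T)
          (B := b + ((j + 1 : ℕ) : ℝ) * (T / 8)) hbT h5
        have h8 : (bads g m a (ε / 2) T b (b + ((j + 1 : ℕ) : ℝ) * (T / 8)) : ℝ) ≤
          bads g m a (ε / 2) T b (b + (j : ℝ) * (T / 8)) +
            bads g m a (ε / 2) T (b + (j : ℝ) * (T / 8)) (b + ((j + 1 : ℕ) : ℝ) * (T / 8)) := by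
          exact_mod_cast h7
        refine h8.trans ((add_le_add h3 h4).trans (le_of_eq ?_))
        push_cast
        ring
    have h3 := hind 8 le_rfl
    have e1 : (bads g m a ε T T (T + T) : ℝ) ≤ bads g m a (ε / 2) T T (b + ((8 : ℕ) : ℝ) * (T / 8)) := by
      have : T + T ≤ b + ((8 : ℕ) : ℝ) * (T / 8) := by
        push_cast
        linarith [hb1.1]
      exact_mod_cast bads_mono (by linarith) (by linarith) this
    have e2 : (bads g m a (ε / 2) T T (b + ((8 : ℕ) : ℝ) * (T / 8)) : ℝ) ≤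
        bads g m a (ε / 2) T T b + bads g m a (ε / 2) T b (b + ((8 : ℕ) : ℝ) * (T / 8)) := by
      exact_mod_cast bads_add (by linarith) hb1.1
    have e3 : (bads g m a (ε / 2) T T b : ℝ) ≤ NN riemannZeta T (T + w) := by
      have h4 := bads_le_NN (g := g) (m := m) (a := a) (ε := ε / 2) (T := T) (A := T) (B := b)
        (by linarith)
      have h5 : NN riemannZeta T b ≤ NN riemannZeta T (T + w) :=
        NN_mono good_zeta (by linarith) le_rfl hb1.2
      exact_mod_cast h4.trans h5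
    have e4 := hNN T hT10 T (T + w) le_rfl (by linarith) (by linarith)
    rw [abs_le] at e4
    have e5 : (NN riemannZeta T (T + w) : ℝ) ≤ w * Real.log T * (1 + 2 * C) := by
      have h4 := e4.2
      have h5 : (T + w - T) * Real.log T / (2 * Real.pi) ≤ w * Real.log T := by
        have h6 : (T + w - T) = w := by ring
        rw [h6]
        apply div_le_self (by positivity)
        linarith [Real.pi_gt_three]
      have h6 : T + w - T + Real.log T ^ 2 ≤ 2 * (w * Real.log T) := by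
        have h7 : w ≤ w * Real.log T := le_mul_of_one_le_right (by positivity) hL1
        have h8 : Real.log T ^ 2 ≤ w * Real.log T := by
          rw [sq]
          apply mul_le_mul_of_nonneg_right _ (by linarith)
          linarith
        linarith
      have h7 : C * (T + w - T + Real.log T ^ 2) ≤ C * (2 * (w * Real.log T)) := by gcongr
      nlinarith
    have e6 : w * Real.log T * (1 + 2 * C) ≤ ε / 4 * T * Real.log T := by
      calc w * Real.log T * (1 + 2 * C) = w * (1 + 2 * C) * Real.log T := by ring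
        _ ≤ _ := by gcongr
    have e7 : 0 ≤ ε * T * Real.log T := by positivity
    push_cast at h3 e2
    push_cast at e1
    linarith

/-- number rigidity of the zeta zeros -/
theorem number_rigidity (hRH : RiemannHypothesis) (a ε : ℝ) (ha : 0 < a) (hε : 0 < ε) :
    ∃ (g : ℝ → ℝ) (m : ℝ), Continuous g ∧ HasCompactSupport g ∧ (∀ x, 0 ≤ g x ∧ g x ≤ 1) ∧
      (∀ x, |x| ≤ a → g x = 1) ∧
      (∀ᶠ T : ℝ in atTop, BlockRigid g m a ε T T T) ∧
      (∀ θ : ℝ, 0 < θ → θ < 1 → ∃ δ : ℝ, 0 < δ ∧ ∀ᶠ T : ℝ in atTop, ∀ H : ℝ,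
        T ^ θ ≤ H → H ≤ T / 8 →
        volume {b : ℝ | b ∈ Icc T (2 * T) ∧ ¬ BlockRigid g m a ε T b H} ≤
        ENNReal.ofReal (T ^ (1 - δ))) := by
  obtain ⟨g, m, h1, h2, h3, h4, h5⟩ := short hRH a (ε / 2) ha (by positivity)
  refine ⟨g, m, h1, h2, h3, h4, ?_, ?_⟩
  · obtain ⟨δ, hδ, h6⟩ := h5 (1 / 2) (by norm_num) (by norm_num)
    refine full_of_short (δ := δ) hε hδ ?_
    filter_upwards [h6, eventually_ge_atTop 64] with T h7 hT
    refine h7 (T / 8) ?_ le_rfl
    have hT0 : 0 < T := by linarith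
    have e1 : T ^ ((1 : ℝ) / 2) * T ^ ((1 : ℝ) / 2) = T := by
      rw [← Real.rpow_add hT0]; norm_num
    have e2 : (8 : ℝ) ≤ T ^ ((1 : ℝ) / 2) := by
      have h8 : (64 : ℝ) ^ ((1 : ℝ) / 2) = 8 := by
        rw [show (64 : ℝ) = 8 ^ (2 : ℝ) by norm_num, ← Real.rpow_mul (by norm_num)]
        norm_num
      rw [← h8]
      exact Real.rpow_le_rpow (by norm_num) hT (by norm_num)
    nlinarith
  · intro θ hθ0 hθ1
    obtain ⟨δ, hδ, h6⟩ := h5 θ hθ0 hθ1
    refine ⟨δ, hδ, ?_⟩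
    filter_upwards [h6, eventually_ge_atTop 1] with T h7 hT H hH1 hH2
    refine (measure_mono ?_).trans (h7 H hH1 hH2)
    rintro b ⟨hb1, hb2⟩
    refine ⟨hb1, fun h8 => hb2 (h8.mono (by linarith) (hT.trans hb1.1) ?_ hT)⟩
    exact le_trans (by positivity) hH1

end Pool.Agent.Helper65.NR
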