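import Pool.Agent.H345R2.A2.Four

set_option autoImplicit false

/-! # The convolution square of a band limited kernel -/

namespace Pool.Agent.Helper65.NR

open MeasureTheory Set Filter Topology H370.A2

variable {φ : ℝ → ℝ} {μ : ℝ}

lemma evp_of_even (he : ∀ x, φ (-x) = φ x) : evp φ = φ := by
  funext x
  unfold evp
  rw [he]; ring

lemma sin_int_zero {G : ℝ → ℝ} (hG : ∀ x, G (-x) = G x) (c : ℝ) :
    ∫ w, G w * Real.sin (c * w) = 0 := by
  have h1 := integral_neg_eq_self (fun w => G w * Real.sin (c * w)) volume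
  have h2 : (fun w => G (-w) * Real.sin (c * -w)) = fun w => -(G w * Real.sin (c * w)) := by
    funext w
    rw [hG, mul_neg, Real.sin_neg]; ring
  simp only [h2] at h1
  rw [integral_neg] at h1
  linarith

/-- the convolution square -/
theorem conv_sq (hφ : Continuous φ) (he : ∀ x, φ (-x) = φ x) (hz : ∀ x, μ ≤ |x| → φ x = 0)
    {C : ℝ} (hC : ∀ x, |RR φ μ x| * x ^ 2 ≤ C) (d : ℝ) :
    ∫ w, RR φ μ w * RR φ μ (d + w) = RR (fun α => φ α ^ 2) μ d := by
  have hGi : Integrable (RR φ μ) := RR_integrable hφ hz hC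
  have hφi : Integrable φ := by
    have := evp_integrable hφ hz
    rwa [evp_of_even he] at this
  have hGc : Continuous (RR φ μ) := RR_cont hφ
  have e1 : ∀ w, RR φ μ w * RR φ μ (d + w) =
      ∫ α, RR φ μ w * (φ α * Real.cos (2 * Real.pi * α * (d + w))) := by
    intro w
    rw [integral_const_mul]
    congr 1
    rw [RR_eq hφ hz, evp_of_even he]
  simp_rw [e1]
  have hprod : Integrable (Function.uncurry fun w α : ℝ =>
      RR φ μ w * (φ α * Real.cos (2 * Real.pi * α * (d + w)))) (volume.prod volume) := by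
    refine (hGi.norm.mul_prod hφi.norm).mono' ?_ (Eventually.of_forall fun z => ?_)
    · apply Continuous.aestronglyMeasurable
      unfold Function.uncurry
      fun_prop
    · unfold Function.uncurry
      rw [norm_mul, norm_mul]
      have h1 : ‖Real.cos (2 * Real.pi * z.2 * (d + z.1))‖ ≤ 1 := by
        rw [Real.norm_eq_abs]; exact Real.abs_cos_le_one _
      have h2 : ‖φ z.2‖ * ‖Real.cos (2 * Real.pi * z.2 * (d + z.1))‖ ≤ ‖φ z.2‖ * 1 := by gcongr
      rw [mul_one] at h2
      gcongr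
  rw [integral_integral_swap hprod]
  have hsq0 : ∀ x, μ ≤ |x| → (fun α => φ α ^ 2) x = 0 := fun x hx => by simp [hz x hx]
  have hse : evp (fun α => φ α ^ 2) = fun α => φ α ^ 2 := evp_of_even fun x => by
    show φ (-x) ^ 2 = φ x ^ 2
    rw [he]
  have hc2 : Continuous fun α => φ α ^ 2 := hφ.pow 2
  rw [RR_eq hc2 hsq0, hse]
  refine integral_congr_ae (Eventually.of_forall fun α => ?_)
  show ∫ w, RR φ μ w * (φ α * Real.cos (2 * Real.pi * α * (d + w))) =
    φ α ^ 2 * Real.cos (2 * Real.pi * α * d)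
  have e2 : ∀ w, RR φ μ w * (φ α * Real.cos (2 * Real.pi * α * (d + w))) =
      (φ α * Real.cos (2 * Real.pi * α * d)) * (RR φ μ w * Real.cos (2 * Real.pi * w * α)) -
      (φ α * Real.sin (2 * Real.pi * α * d)) * (RR φ μ w * Real.sin ((2 * Real.pi * α) * w)) := by
    intro w
    have : 2 * Real.pi * α * (d + w) = 2 * Real.pi * α * d + 2 * Real.pi * w * α := by ring
    rw [this, Real.cos_add]
    have h3 : 2 * Real.pi * w * α = (2 * Real.pi * α) * w := by ring
    rw [h3]
    ring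
  have i1 : Integrable fun w => RR φ μ w * Real.cos (2 * Real.pi * w * α) := by
    refine hGi.norm.mono' (by apply Continuous.aestronglyMeasurable; fun_prop)
      (Eventually.of_forall fun w => ?_)
    rw [norm_mul]
    exact mul_le_of_le_one_right (norm_nonneg _)
      (by rw [Real.norm_eq_abs]; exact Real.abs_cos_le_one _)
  have i2 : Integrable fun w => RR φ μ w * Real.sin ((2 * Real.pi * α) * w) := by
    refine hGi.norm.mono' (by apply Continuous.aestronglyMeasurable; fun_prop)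
      (Eventually.of_forall fun w => ?_)
    rw [norm_mul]
    exact mul_le_of_le_one_right (norm_nonneg _)
      (by rw [Real.norm_eq_abs]; exact Real.abs_sin_le_one _)
  simp_rw [e2]
  rw [integral_sub (i1.const_mul _) (i2.const_mul _), integral_const_mul, integral_const_mul,
    RR_inv hφ hz hC, sin_int_zero (fun x => RR_even x), evp_of_even he]
  ring

/-- the inverse square decay is stable under convolution -/
lemma conv_decay {G : ℝ → ℝ} {C : ℝ} (hC0 : 0 ≤ C)
    (hC : ∀ x, |G x| ≤ C / (1 + x ^ 2)) (d : ℝ) :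
    |∫ w, G w * G (d + w)| * d ^ 2 ≤ 8 * Real.pi * C ^ 2 := by
  have hpi := Real.pi_pos
  have hi : Integrable fun x : ℝ => (1 + x ^ 2)⁻¹ := integrable_inv_one_add_sq
  have hi2 : Integrable fun x : ℝ => (1 + (d + x) ^ 2)⁻¹ := hi.comp_add_left d
  have hb : ∀ w, |G w * G (d + w)| * d ^ 2 ≤
      4 * C ^ 2 * ((1 + w ^ 2)⁻¹ + (1 + (d + w) ^ 2)⁻¹) := by
    intro w
    have h1 := hC w
    have h2 := hC (d + w)
    have h3 : |G w * G (d + w)| ≤ C / (1 + w ^ 2) * (C / (1 + (d + w) ^ 2)) := by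
      rw [abs_mul]; gcongr
    have h4 : d ^ 2 ≤ 2 * (1 + w ^ 2) + 2 * (1 + (d + w) ^ 2) := by
      nlinarith [sq_nonneg (d + w + w)]
    have p1 : 0 < 1 + w ^ 2 := by positivity
    have p2 : 0 < 1 + (d + w) ^ 2 := by positivity
    calc |G w * G (d + w)| * d ^ 2 ≤ (C / (1 + w ^ 2) * (C / (1 + (d + w) ^ 2))) *
        (2 * (1 + w ^ 2) + 2 * (1 + (d + w) ^ 2)) := by gcongr
      _ = 2 * C ^ 2 * ((1 + w ^ 2)⁻¹ + (1 + (d + w) ^ 2)⁻¹) := by
          field_simp
          ring
      _ ≤ _ := by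
          have : 0 ≤ C ^ 2 * ((1 + w ^ 2)⁻¹ + (1 + (d + w) ^ 2)⁻¹) := by positivity
          nlinarith
  have h5 : |∫ w, G w * G (d + w)| * d ^ 2 ≤ ∫ w, |G w * G (d + w)| * d ^ 2 := by
    rw [integral_mul_const]
    gcongr
    rw [← Real.norm_eq_abs]
    refine (norm_integral_le_integral_norm _).trans (le_of_eq ?_)
    simp only [Real.norm_eq_abs]
  refine h5.trans ?_
  have h6 : ∫ w, |G w * G (d + w)| * d ^ 2 ≤
      ∫ w, 4 * C ^ 2 * ((1 + w ^ 2)⁻¹ + (1 + (d + w) ^ 2)⁻¹) :=
    integral_mono_of_nonneg (Eventually.of_forall fun w => by positivity)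
      ((hi.add hi2).const_mul _) (Eventually.of_forall hb)
  refine h6.trans (le_of_eq ?_)
  have h7 : ∫ w : ℝ, ((1 + w ^ 2)⁻¹ + (1 + (d + w) ^ 2)⁻¹) = 2 * Real.pi := by
    rw [integral_add hi hi2, integral_univ_inv_one_add_sq]
    have h8 : ∫ w : ℝ, (1 + (d + w) ^ 2)⁻¹ = Real.pi := by
      rw [integral_add_left_eq_self (fun x : ℝ => (1 + x ^ 2)⁻¹) d, integral_univ_inv_one_add_sq]
    rw [h8]; ring
  rw [integral_const_mul, h7]
  ring

end Pool.Agent.Helper65.NR
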